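import Mathlib

set_option autoImplicit false

namespace Pool.Agent.H101R2.KT

open Matrix

/-- `SL₂(𝔽₅)` -/
abbrev S : Type := Matrix.SpecialLinearGroup (Fin 2) (ZMod 5)

instance : Fact (Nat.Prime 5) := ⟨by norm_num⟩

/-- upper unipotents -/
def uu (a : ZMod 5) : S := ⟨!![1, a; 0, 1], by simp [Matrix.det_fin_two]⟩

/-- lower unipotents -/
def ll (b : ZMod 5) : S := ⟨!![1, 0; b, 1], by simp [Matrix.det_fin_two]⟩

/-- the Weyl element -/
def ww : S := ⟨!![0, -1; 1, 0], by simp [Matrix.det_fin_two]⟩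

/-- torus elements, `t * t' = 1` -/
def hh (t t' : ZMod 5) (h : t * t' = 1) : S := ⟨!![t, 0; 0, t'], by
  simp [Matrix.det_fin_two, h]⟩

theorem val_uu (a : ZMod 5) : (uu a : Matrix (Fin 2) (Fin 2) (ZMod 5)) = !![1, a; 0, 1] := rfl
theorem val_ll (a : ZMod 5) : (ll a : Matrix (Fin 2) (Fin 2) (ZMod 5)) = !![1, 0; a, 1] := rfl
theorem val_ww : (ww : Matrix (Fin 2) (Fin 2) (ZMod 5)) = !![0, -1; 1, 0] := rfl
theorem val_hh (t t' : ZMod 5) (h : t * t' = 1) :
    (hh t t' h : Matrix (Fin 2) (Fin 2) (ZMod 5)) = !![t, 0; 0, t'] := rfl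

theorem uu_add (a b : ZMod 5) : uu (a + b) = uu a * uu b := by
  apply Subtype.ext
  rw [Matrix.SpecialLinearGroup.coe_mul, val_uu, val_uu, val_uu, Matrix.mul_fin_two]
  simp [add_comm]

theorem ll_add (a b : ZMod 5) : ll (a + b) = ll a * ll b := by
  apply Subtype.ext
  rw [Matrix.SpecialLinearGroup.coe_mul, val_ll, val_ll, val_ll, Matrix.mul_fin_two]
  simp

theorem uu_zero : uu 0 = 1 := by
  apply Subtype.ext
  rw [Matrix.SpecialLinearGroup.coe_one, val_uu, Matrix.one_fin_two]

theorem ll_zero : ll 0 = 1 := by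
  apply Subtype.ext
  rw [Matrix.SpecialLinearGroup.coe_one, val_ll, Matrix.one_fin_two]

theorem uu_neg (a : ZMod 5) : uu (-a) = (uu a)⁻¹ := by
  rw [eq_inv_iff_mul_eq_one, ← uu_add, neg_add_cancel, uu_zero]

theorem ll_neg (a : ZMod 5) : ll (-a) = (ll a)⁻¹ := by
  rw [eq_inv_iff_mul_eq_one, ← ll_add, neg_add_cancel, ll_zero]

theorem ll_eq (b : ZMod 5) : ll b = ww⁻¹ * uu (-b) * ww := by
  rw [mul_assoc, eq_inv_mul_iff_mul_eq]
  apply Subtype.ext
  rw [Matrix.SpecialLinearGroup.coe_mul, Matrix.SpecialLinearGroup.coe_mul, val_ll, val_uu, val_ww,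
    Matrix.mul_fin_two, Matrix.mul_fin_two]
  simp

theorem hh_uu (t t' : ZMod 5) (h : t * t' = 1) (a : ZMod 5) :
    hh t t' h * uu a = uu (t * t * a) * hh t t' h := by
  apply Subtype.ext
  rw [Matrix.SpecialLinearGroup.coe_mul, Matrix.SpecialLinearGroup.coe_mul, val_uu, val_uu, val_hh,
    Matrix.mul_fin_two, Matrix.mul_fin_two]
  have : t * t * a * t' = t * a := by linear_combination (t * a) * h
  simp [this]

theorem hh_mul (s s' : ZMod 5) (hs : s * s' = 1) (t t' : ZMod 5) (h : t * t' = 1) :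
    hh s s' hs * hh t t' h = hh (s * t) (s' * t') (by rw [mul_mul_mul_comm, hs, h, one_mul]) := by
  apply Subtype.ext
  rw [Matrix.SpecialLinearGroup.coe_mul, val_hh, val_hh, val_hh, Matrix.mul_fin_two]
  simp

theorem ll_unit (t t' : ZMod 5) (h : t * t' = 1) :
    ll t = uu t' * (ww * (hh t t' h * uu t')) := by
  apply Subtype.ext
  simp only [Matrix.SpecialLinearGroup.coe_mul, val_uu, val_hh, val_ww, val_ll, Matrix.mul_fin_two]
  ext i j
  fin_cases i <;> fin_cases j <;> simp <;>
    first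
    | linear_combination -h
    | linear_combination (-t') * h
    | linear_combination (t') * h
    | linear_combination h

theorem ww_uu_ww (t t' : ZMod 5) (h : t * t' = 1) :
    ww * (uu t * ww) = uu (-t') * (ww * (hh t t' h * uu (-t'))) := by
  apply Subtype.ext
  simp only [Matrix.SpecialLinearGroup.coe_mul, val_uu, val_hh, val_ww, Matrix.mul_fin_two]
  ext i j
  fin_cases i <;> fin_cases j <;> simp <;>
    first
    | linear_combination -h
    | linear_combination (-t') * h
    | linear_combination (t') * h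
    | linear_combination h

theorem ww_sq : ww * ww = hh (-1) (-1) (by norm_num) := by
  apply Subtype.ext
  simp only [Matrix.SpecialLinearGroup.coe_mul, val_hh, val_ww, Matrix.mul_fin_two]
  simp

/-- a subgroup containing all `uu a` and `ll b` is everything -/
theorem eq_top_of {P : Subgroup S} (hu : ∀ a, uu a ∈ P) (hl : ∀ b, ll b ∈ P) : P = ⊤ := by
  have hw : ww ∈ P := by
    have : ww = uu (-1) * (ll 1 * uu (-1)) := by
      apply Subtype.ext
      simp only [Matrix.SpecialLinearGroup.coe_mul, val_uu, val_ww, val_ll, Matrix.mul_fin_two]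
      simp
    rw [this]
    exact P.mul_mem (hu _) (P.mul_mem (hl _) (hu _))
  have key : ∀ g : S, g.1 1 0 ≠ 0 → g ∈ P := by
    intro g hc
    have hg : g = uu ((g.1 0 0 - 1) / g.1 1 0) * (ll (g.1 1 0) * uu ((g.1 1 1 - 1) / g.1 1 0)) := by
      apply Subtype.ext
      have hdet : g.1 0 0 * g.1 1 1 - g.1 0 1 * g.1 1 0 = 1 := by
        have := g.2
        rwa [Matrix.det_fin_two] at this
      simp only [Matrix.SpecialLinearGroup.coe_mul, val_uu, val_ll, Matrix.mul_fin_two]
      have e00 : (g.1 0 0 - 1) / g.1 1 0 * g.1 1 0 = g.1 0 0 - 1 := by field_simp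
      have e11 : g.1 1 0 * ((g.1 1 1 - 1) / g.1 1 0) = g.1 1 1 - 1 := by field_simp
      have e01 : g.1 0 1 = (g.1 1 1 - 1) / g.1 1 0 + (g.1 0 0 - 1) / g.1 1 0 * g.1 1 1 := by
        field_simp
        linear_combination -hdet
      ext i j
      fin_cases i <;> fin_cases j
      · simp [e00]
      · simp [e11]
        exact e01
      · simp
      · simp [e11]
    rw [hg]
    exact P.mul_mem (hu _) (P.mul_mem (hl _) (hu _))
  rw [eq_top_iff]
  intro g _
  by_cases hc : g.1 1 0 = 0
  · have h2 : ww * g ∈ P := by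
      apply key
      have hdet : g.1 0 0 * g.1 1 1 - g.1 0 1 * g.1 1 0 = 1 := by
        have := g.2
        rwa [Matrix.det_fin_two] at this
      have : (ww * g).1 1 0 = g.1 0 0 := by
        rw [Matrix.SpecialLinearGroup.coe_mul, val_ww]
        simp [Matrix.mul_apply, Fin.sum_univ_two]
      rw [this]
      intro h
      rw [h, hc] at hdet
      simp at hdet
    have := P.mul_mem (P.inv_mem hw) h2
    simpa using this
  · exact key g hc

theorem commutator_S : commutator S = ⊤ := by
  have hu : ∀ a, uu a ∈ commutator S := by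
    intro a
    have h3 : uu a = hh 2 3 (by decide) * uu (a * 2) * (hh 2 3 (by decide))⁻¹ * (uu (a * 2))⁻¹ := by
      rw [hh_uu, mul_inv_cancel_right, ← uu_neg, ← uu_add]
      congr 1
      have h5 : (5 : ZMod 5) = 0 := by decide
      linear_combination (-a) * h5
    rw [h3]
    exact Subgroup.commutator_mem_commutator (Subgroup.mem_top _) (Subgroup.mem_top _)
  apply eq_top_of hu
  intro b
  rw [ll_eq]
  have := (inferInstance : (commutator S).Normal).conj_mem _ (hu (-b)) ww⁻¹
  simpa using this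

end Pool.Agent.H101R2.KT
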