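import Mathlib
import Pool.Agent.H101R2.KT.SL

set_option autoImplicit false

namespace Pool.Agent.H101R2.KT

open scoped ComplexInnerProductSpace

variable {H : Type*} [NormedAddCommGroup H] [InnerProductSpace ℂ H]

section avg

variable {F : Type*} [Group F] [Fintype F]

/-- average over a finite group -/
noncomputable def avg (π : F →* (H ≃ₗᵢ[ℂ] H)) : H →L[ℂ] H :=
  ((Fintype.card F : ℂ)⁻¹) •
    ∑ g : F, (((π g : H ≃ₗᵢ[ℂ] H).toContinuousLinearEquiv : H ≃L[ℂ] H) : H →L[ℂ] H)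

theorem avg_apply (π : F →* (H ≃ₗᵢ[ℂ] H)) (x : H) :
    avg π x = ((Fintype.card F : ℂ)⁻¹) • ∑ g : F, π g x := by
  simp [avg]

theorem card_ne (F : Type*) [Group F] [Fintype F] : (Fintype.card F : ℂ) ≠ 0 := by
  exact_mod_cast Fintype.card_ne_zero

theorem card_smul_avg (π : F →* (H ≃ₗᵢ[ℂ] H)) (x : H) :
    (Fintype.card F : ℂ) • avg π x = ∑ g : F, π g x := by
  rw [avg_apply, smul_smul, mul_inv_cancel₀ (card_ne F), one_smul]

theorem smul_avg (π : F →* (H ≃ₗᵢ[ℂ] H)) (g : F) (x : H) : π g (avg π x) = avg π x := by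
  rw [avg_apply, map_smul, map_sum]
  congr 1
  refine Fintype.sum_equiv (Equiv.mulLeft g) _ _ fun k => ?_
  rw [Equiv.coe_mulLeft, map_mul]
  rfl

theorem avg_smul (π : F →* (H ≃ₗᵢ[ℂ] H)) (g : F) (x : H) : avg π (π g x) = avg π x := by
  rw [avg_apply, avg_apply]
  congr 1
  refine Fintype.sum_equiv (Equiv.mulRight g) _ _ fun k => ?_
  rw [Equiv.coe_mulRight, map_mul]
  rfl

theorem avg_of_fixed (π : F →* (H ≃ₗᵢ[ℂ] H)) {x : H} (h : ∀ g, π g x = x) : avg π x = x := by
  rw [avg_apply]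
  simp only [h, Finset.sum_const, Finset.card_univ]
  rw [← Nat.cast_smul_eq_nsmul ℂ, smul_smul, inv_mul_cancel₀ (card_ne F), one_smul]

theorem avg_idem (π : F →* (H ≃ₗᵢ[ℂ] H)) (x : H) : avg π (avg π x) = avg π x :=
  avg_of_fixed π fun g => smul_avg π g x

theorem fixed_of_avg (π : F →* (H ≃ₗᵢ[ℂ] H)) {x : H} (h : avg π x = x) (g : F) : π g x = x := by
  rw [← h, smul_avg]

omit [Fintype F] in
theorem inner_smul_inv (π : F →* (H ≃ₗᵢ[ℂ] H)) (g : F) (x y : H) :
    ⟪π g x, y⟫ = ⟪x, π g⁻¹ y⟫ := by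
  have : y = π g (π g⁻¹ y) := by
    have h : (π g * π g⁻¹) y = y := by rw [← map_mul]; simp
    exact h.symm
  conv_lhs => rw [this]
  exact (π g).inner_map_map _ _

theorem inner_avg (π : F →* (H ≃ₗᵢ[ℂ] H)) (x y : H) : ⟪avg π x, y⟫ = ⟪x, avg π y⟫ := by
  rw [avg_apply, avg_apply, inner_smul_left, inner_smul_right, sum_inner, inner_sum]
  congr 1
  · simp
  · refine Fintype.sum_equiv (Equiv.inv F) _ _ fun k => ?_
    rw [inner_smul_inv]
    rfl

theorem norm_avg_sub (π : F →* (H ≃ₗᵢ[ℂ] H)) {x : H} {δ : ℝ} (h : ∀ g, ‖π g x - x‖ ≤ δ) :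
    ‖avg π x - x‖ ≤ δ := by
  have e : avg π x - x = ((Fintype.card F : ℂ)⁻¹) • ∑ g : F, (π g x - x) := by
    rw [Finset.sum_sub_distrib, smul_sub, ← avg_apply]
    congr 1
    simp only [Finset.sum_const, Finset.card_univ]
    rw [← Nat.cast_smul_eq_nsmul ℂ, smul_smul, inv_mul_cancel₀ (card_ne F), one_smul]
  rw [e, norm_smul]
  have h1 : ‖∑ g : F, (π g x - x)‖ ≤ Fintype.card F * δ := by
    calc _ ≤ ∑ g : F, ‖π g x - x‖ := norm_sum_le _ _
      _ ≤ ∑ _g : F, δ := Finset.sum_le_sum fun g _ => h g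
      _ = _ := by simp
  have h2 : (0 : ℝ) < Fintype.card F := by exact_mod_cast Fintype.card_pos
  have h3 : ‖((Fintype.card F : ℂ)⁻¹)‖ = (Fintype.card F : ℝ)⁻¹ := by simp
  rw [h3]
  calc _ ≤ (Fintype.card F : ℝ)⁻¹ * (Fintype.card F * δ) := by gcongr
    _ = δ := by field_simp

end avg

/-- real part of the inner product -/
noncomputable def rin (x y : H) : ℝ := RCLike.re ⟪x, y⟫

theorem rin_self (x : H) : rin x x = ‖x‖ ^ 2 := inner_self_eq_norm_sq (𝕜 := ℂ) x

theorem rin_comm (x y : H) : rin x y = rin y x := by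
  unfold rin
  exact inner_re_symm (𝕜 := ℂ) x y

theorem rin_add_left (x y z : H) : rin (x + y) z = rin x z + rin y z := by
  unfold rin; rw [inner_add_left, map_add]

theorem rin_add_right (x y z : H) : rin x (y + z) = rin x y + rin x z := by
  unfold rin; rw [inner_add_right, map_add]

theorem rin_sub_left (x y z : H) : rin (x - y) z = rin x z - rin y z := by
  unfold rin; rw [inner_sub_left, map_sub]

theorem rin_sub_right (x y z : H) : rin x (y - z) = rin x y - rin x z := by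
  unfold rin; rw [inner_sub_right, map_sub]

theorem rin_neg_left (x y : H) : rin (-x) y = - rin x y := by
  unfold rin; rw [inner_neg_left, map_neg]

theorem rin_natCast_smul_left (n : ℕ) (x y : H) : rin ((n : ℂ) • x) y = n * rin x y := by
  unfold rin
  rw [inner_smul_left]
  simp

theorem rin_sum_left {ι : Type*} (s : Finset ι) (f : ι → H) (y : H) :
    rin (∑ i ∈ s, f i) y = ∑ i ∈ s, rin (f i) y := by
  unfold rin
  rw [sum_inner, map_sum]

theorem abs_rin_le (x y : H) : |rin x y| ≤ ‖x‖ * ‖y‖ := by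
  unfold rin
  exact (RCLike.abs_re_le_norm _).trans (norm_inner_le_norm x y)

theorem rin_zero_left (x : H) : rin 0 x = 0 := by unfold rin; simp

theorem rin_avg_left {F : Type*} [Group F] [Fintype F] (π : F →* (H ≃ₗᵢ[ℂ] H)) (x y : H) :
    rin (avg π x) y = rin x (avg π y) := by
  unfold rin; rw [inner_avg]

theorem rin_avg_self {F : Type*} [Group F] [Fintype F] (π : F →* (H ≃ₗᵢ[ℂ] H)) (x : H) :
    rin (avg π x) x = ‖avg π x‖ ^ 2 := by
  rw [← rin_self, rin_avg_left, rin_avg_left, avg_idem]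

end Pool.Agent.H101R2.KT
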