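import Mathlib
import Pool.Agent.H101R2.KT.Rep

set_option autoImplicit false

namespace Pool.Agent.H101R2.KT

open scoped ComplexInnerProductSpace

variable {H : Type*} [NormedAddCommGroup H] [InnerProductSpace ℂ H]

/-- upper unipotent group -/
def uH : Multiplicative (ZMod 5) →* S where
  toFun a := uu a.toAdd
  map_one' := uu_zero
  map_mul' _ _ := uu_add _ _

/-- lower unipotent group -/
def lH : Multiplicative (ZMod 5) →* S where
  toFun a := ll a.toAdd
  map_one' := ll_zero
  map_mul' _ _ := ll_add _ _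

/-- torus -/
def tH : (ZMod 5)ˣ →* S where
  toFun t := hh (t : ZMod 5) ((t⁻¹ : (ZMod 5)ˣ) : ZMod 5) t.mul_inv
  map_one' := by
    apply Subtype.ext
    rw [val_hh, Matrix.SpecialLinearGroup.coe_one, Matrix.one_fin_two]
    simp
  map_mul' s t := by
    rw [hh_mul]
    apply Subtype.ext
    rw [val_hh, val_hh, mul_inv, Units.val_mul, Units.val_mul]

theorem sum_mult {M : Type*} [AddCommMonoid M] (f : ZMod 5 → M) :
    ∑ a : Multiplicative (ZMod 5), f a.toAdd = ∑ a : ZMod 5, f a :=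
  Fintype.sum_equiv Multiplicative.toAdd _ _ fun _ => rfl

theorem univ_units : (Finset.univ : Finset (ZMod 5)ˣ) =
    {1, Units.mk0 2 (by decide), Units.mk0 3 (by decide), Units.mk0 4 (by decide)} := by
  decide

theorem sum_split {M : Type*} [AddCommMonoid M] (f : ZMod 5 → M) :
    ∑ a : ZMod 5, f a = f 0 + ∑ t : (ZMod 5)ˣ, f (t : ZMod 5) := by
  have h1 : ∑ a : ZMod 5, f a = f 0 + f 1 + f 2 + f 3 + f 4 := Fin.sum_univ_five f
  rw [h1, univ_units, Finset.sum_insert (by decide), Finset.sum_insert (by decide),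
    Finset.sum_insert (by decide), Finset.sum_singleton]
  simp only [Units.val_one, Units.val_mk0, add_assoc]

/-- reindexing `t ↦ -t⁻¹` on the units -/
theorem sum_neg_inv {M : Type*} [AddCommMonoid M] (f : ZMod 5 → M) :
    ∑ t : (ZMod 5)ˣ, f (-((t⁻¹ : (ZMod 5)ˣ) : ZMod 5)) = ∑ t : (ZMod 5)ˣ, f (t : ZMod 5) := by
  refine Fintype.sum_equiv ((Equiv.inv _).trans (Equiv.neg _)) _ _ fun t => ?_
  show f (-((t⁻¹ : (ZMod 5)ˣ) : ZMod 5)) = f ((-(t⁻¹) : (ZMod 5)ˣ) : ZMod 5)
  rw [Units.val_neg]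

variable (π : S →* (H ≃ₗᵢ[ℂ] H))

theorem mul_act (g h : S) (x : H) : π (g * h) x = π g (π h x) := by
  rw [map_mul]; rfl

theorem angle {x : H} (hU : ∀ a, π (uu a) x = x) (hR : avg π x = 0) :
    5 * ‖avg (π.comp lH) x‖ ^ 2 ≤ ‖x‖ ^ 2 := by
  have hact := mul_act π
  set x0 : H := avg (π.comp tH) x with hx0
  -- `x0` is fixed by the upper unipotents
  have hUx0 : ∀ a, π (uu a) x0 = x0 := by
    intro a
    rw [hx0, avg_apply, map_smul, map_sum]
    congr 1
    refine Finset.sum_congr rfl fun t _ => ?_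
    show π (uu a) (π (hh _ _ t.mul_inv) x) = π (hh _ _ t.mul_inv) x
    rw [← hact]
    have h1 : uu a * hh (t : ZMod 5) ((t⁻¹ : (ZMod 5)ˣ) : ZMod 5) t.mul_inv =
        hh (t : ZMod 5) ((t⁻¹ : (ZMod 5)ˣ) : ZMod 5) t.mul_inv *
          uu (((t⁻¹ : (ZMod 5)ˣ) : ZMod 5) * ((t⁻¹ : (ZMod 5)ˣ) : ZMod 5) * a) := by
      rw [hh_uu]
      congr 2
      have h : (t : ZMod 5) * ((t⁻¹ : (ZMod 5)ˣ) : ZMod 5) = 1 := t.mul_inv
      linear_combination (-a) * h * (1 + (t : ZMod 5) * ((t⁻¹ : (ZMod 5)ˣ) : ZMod 5))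
    rw [h1, hact, hU]
  have hTx0 : ∀ (t t' : ZMod 5) (h : t * t' = 1), π (hh t t' h) x0 = x0 := by
    intro t t' h
    have h1 : hh t t' h = tH (Units.mk t t' h (by rw [mul_comm]; exact h)) := rfl
    rw [h1]
    exact smul_avg (π.comp tH) _ x
  have hRx0 : avg π x0 = 0 := by
    rw [hx0, avg_apply (π.comp tH), map_smul, map_sum]
    have : ∀ t ∈ (Finset.univ : Finset (ZMod 5)ˣ), avg π ((π.comp tH) t x) = 0 := by
      intro t _
      rw [MonoidHom.comp_apply, avg_smul, hR]
    rw [Finset.sum_eq_zero this, smul_zero]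
  -- the vector `y`
  set z : H := π ww x0 with hz
  have hy : x0 + ∑ a : ZMod 5, π (uu a) z = 0 := by
    set y : H := x0 + ∑ a : ZMod 5, π (uu a) z with hydef
    have hyU : ∀ b, π (uu b) y = y := by
      intro b
      rw [hydef, map_add, hUx0, map_sum]
      congr 1
      refine Fintype.sum_equiv (Equiv.addLeft b) _ _ fun a => ?_
      rw [← hact, ← uu_add]
      rfl
    have hyW : π ww y = y := by
      rw [hydef, map_add, map_sum, sum_split, sum_split, uu_zero]
      have e1 : π ww (π 1 z) = x0 := by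
        rw [map_one]
        show π ww z = x0
        rw [hz, ← hact, ww_sq, hTx0]
      have e2 : ∀ t : (ZMod 5)ˣ, π ww (π (uu t) z) =
          π (uu (-((t⁻¹ : (ZMod 5)ˣ) : ZMod 5))) z := by
        intro t
        rw [hz, ← hact, ← hact, mul_assoc, ww_uu_ww _ _ t.mul_inv, hact, hact, hact, hUx0, hTx0]
      rw [e1, Finset.sum_congr rfl fun t _ => e2 t, sum_neg_inv (fun a => π (uu a) z)]
      rw [map_one]
      show z + (x0 + _) = x0 + (z + _)
      abel
    have hyall : ∀ g, π g y = y := by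
      intro g
      let P : Subgroup S :=
        { carrier := {g | π g y = y}
          one_mem' := by simp
          mul_mem' := by
            intro a b ha hb
            show π (a * b) y = y
            rw [hact, show π b y = y from hb, show π a y = y from ha]
          inv_mem' := by
            intro a ha
            show π a⁻¹ y = y
            have h1 : π a⁻¹ (π a y) = y := by rw [← hact]; simp
            rwa [show π a y = y from ha] at h1 }
      have hw : ww ∈ P := hyW
      have hP : P = ⊤ := by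
        apply eq_top_of
        · intro a; exact hyU a
        · intro b
          rw [ll_eq]
          exact P.mul_mem (P.mul_mem (P.inv_mem hw) (hyU _)) hw
      have : g ∈ P := by rw [hP]; trivial
      exact this
    rw [← avg_of_fixed π hyall, hydef, map_add, map_sum, hRx0, zero_add]
    apply Finset.sum_eq_zero
    intro a _
    rw [avg_smul, hz, avg_smul, hRx0]
  -- conclude
  have hPx : avg (π.comp uH) x = x := avg_of_fixed _ fun a => hU _
  have hsum : ∑ a : ZMod 5, rin (π (uu a) z) x = 5 * rin z x := by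
    have : ∀ a ∈ (Finset.univ : Finset (ZMod 5)), rin (π (uu a) z) x = rin z x := by
      intro a _
      have h1 : rin (π (uu a) z) (π (uu a) x) = rin z x := by
        unfold rin; rw [(π (uu a)).inner_map_map]
      rwa [hU] at h1
    rw [Finset.sum_congr rfl this]
    simp
  have h0 : rin x0 x = ‖x0‖ ^ 2 := rin_avg_self _ x
  have h1 : rin x0 x + 5 * rin z x = 0 := by
    rw [← hsum, ← rin_sum_left, ← rin_add_left, hy, rin_zero_left]
  have h2 : rin (avg (π.comp lH) x) x = ‖avg (π.comp lH) x‖ ^ 2 := rin_avg_self _ x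
  have h3 : (5 : ℝ) * rin (avg (π.comp lH) x) x = ‖x‖ ^ 2 + 4 * rin z x := by
    have e1 : rin (∑ b : ZMod 5, π (ll b) x) x = (5 : ℝ) * rin (avg (π.comp lH) x) x := by
      have := card_smul_avg (π.comp lH) x
      have h4 : ∑ b : ZMod 5, π (ll b) x = ∑ g : Multiplicative (ZMod 5), (π.comp lH) g x :=
        (sum_mult fun b => π (ll b) x).symm
      rw [h4, ← this, rin_natCast_smul_left]
      simp [ZMod.card]
    have e2 : rin (∑ t : (ZMod 5)ˣ, π (tH t) x) (π ww⁻¹ x) = (4 : ℝ) * rin x0 (π ww⁻¹ x) := by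
      have := card_smul_avg (π.comp tH) x
      have h4 : ∑ t : (ZMod 5)ˣ, π (tH t) x = ∑ g : (ZMod 5)ˣ, (π.comp tH) g x := rfl
      rw [h4, ← this, rin_natCast_smul_left, ← hx0, ZMod.card_units]
      norm_num
    have e3 : rin x0 (π ww⁻¹ x) = rin z x := by
      unfold rin
      rw [hz, inner_smul_inv]
    rw [← e1, sum_split, ll_zero, map_one, rin_add_left, rin_sum_left]
    have e4 : rin ((1 : H ≃ₗᵢ[ℂ] H) x) x = ‖x‖ ^ 2 := rin_self x
    rw [e4, ← e3, ← e2, rin_sum_left]
    congr 1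
    refine Finset.sum_congr rfl fun t _ => ?_
    have h5 : π (ll t) x = π (uu ((t⁻¹ : (ZMod 5)ˣ) : ZMod 5)) (π ww (π (tH t) x)) := by
      rw [ll_unit _ _ t.mul_inv, hact, hact, hact, hU]
      rfl
    have h6 : rin (π (uu ((t⁻¹ : (ZMod 5)ˣ) : ZMod 5)) (π ww (π (tH t) x))) x =
        rin (π ww (π (tH t) x)) x := by
      have h7 : rin (π (uu ((t⁻¹ : (ZMod 5)ˣ) : ZMod 5)) (π ww (π (tH t) x)))
          (π (uu ((t⁻¹ : (ZMod 5)ˣ) : ZMod 5)) x) = rin (π ww (π (tH t) x)) x := by
        unfold rin; rw [(π (uu ((t⁻¹ : (ZMod 5)ˣ) : ZMod 5))).inner_map_map]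
      rwa [hU] at h7
    rw [h5, h6]
    unfold rin
    rw [inner_smul_inv]
  nlinarith [sq_nonneg ‖x0‖, sq_nonneg ‖x‖]

end Pool.Agent.H101R2.KT
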