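import Mathlib
import Pool.Agent.H101R2.KT.SL

set_option autoImplicit false

namespace Pool.Agent.H101R2.KT

open Matrix

/-- field data: an involution `σ` and an element `τ` with `τ σ(τ) = 1` -/
structure Dat (K : Type) [Field K] [Algebra (ZMod 5) K] where
  σ : K →+* K
  σσ : ∀ x, σ (σ x) = x
  τ : K
  τ' : K
  hτ : τ * τ' = 1
  hσ : σ τ = τ'
  hne : τ ≠ τ'

namespace Dat

variable {K : Type} [Field K] [Algebra (ZMod 5) K] (D : Dat K)

/-- prime field embedding -/
abbrev cc : ZMod 5 →+* K := algebraMap (ZMod 5) K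

theorem σ_cc (a : ZMod 5) : D.σ (cc a) = cc a := by
  have : D.σ.comp (cc (K := K)) = cc := Subsingleton.elim _ _
  exact congrArg (fun f : ZMod 5 →+* K => f a) this

theorem five : (5 : K) = 0 := by
  have h : (5 : ZMod 5) = 0 := by decide
  have := congrArg (cc (K := K)) h
  rw [map_zero] at this
  rw [← this]
  exact (map_ofNat (cc (K := K)) 5).symm

theorem two_ne : (2 : K) ≠ 0 := by
  intro h
  have h5 := five (K := K)
  have : (1 : K) = 0 := by linear_combination h5 - 2 * h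
  exact one_ne_zero this

theorem hσ' : D.σ D.τ' = D.τ := by rw [← D.hσ, D.σσ]

def ζ : K := D.τ' - D.τ

theorem σζ : D.σ D.ζ = - D.ζ := by
  unfold ζ
  rw [map_sub, D.hσ, D.hσ']
  ring

theorem ζ_ne : D.ζ ≠ 0 := fun h => D.hne (sub_eq_zero.1 h).symm

/-- the skew-hermitian form -/
def f (x y : Fin 3 → K) : K :=
  x 0 * D.σ (y 2) - x 2 * D.σ (y 0) + D.ζ * x 1 * D.σ (y 1)

theorem f_add_left (x x' y : Fin 3 → K) : D.f (x + x') y = D.f x y + D.f x' y := by
  simp only [f, Pi.add_apply]; ring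

theorem f_smul_left (a : K) (x y : Fin 3 → K) : D.f (a • x) y = a * D.f x y := by
  simp only [f, Pi.smul_apply, smul_eq_mul]; ring

theorem f_add_right (x y y' : Fin 3 → K) : D.f x (y + y') = D.f x y + D.f x y' := by
  simp only [f, Pi.add_apply, map_add]; ring

theorem f_smul_right (a : K) (x y : Fin 3 → K) : D.f x (a • y) = D.σ a * D.f x y := by
  simp only [f, Pi.smul_apply, smul_eq_mul, map_mul]; ring

theorem f_neg_left (x y : Fin 3 → K) : D.f (-x) y = - D.f x y := by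
  simp only [f, Pi.neg_apply]; ring

theorem f_neg_right (x y : Fin 3 → K) : D.f x (-y) = - D.f x y := by
  simp only [f, Pi.neg_apply, map_neg]; ring

theorem f_skew (x y : Fin 3 → K) : D.f y x = - D.σ (D.f x y) := by
  simp only [f, map_add, map_sub, map_mul, D.σσ, D.σζ]; ring

theorem σf (x y : Fin 3 → K) : D.σ (D.f x y) = - D.f y x := by
  rw [D.f_skew x y, neg_neg]

/-- the linear map attached to a matrix and a hyperbolic pair -/
def hypL (u w : Fin 3 → K) (g : Matrix (Fin 2) (Fin 2) K) : (Fin 3 → K) →ₗ[K] (Fin 3 → K) where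
  toFun x := x + (((g 0 0 - 1) * D.f x w - g 0 1 * D.f x u) • u
    + (g 1 0 * D.f x w - (g 1 1 - 1) * D.f x u) • w)
  map_add' x y := by
    simp only [f_add_left]
    module
  map_smul' a x := by
    simp only [f_smul_left, RingHom.id_apply]
    module

theorem hypL_apply (u w : Fin 3 → K) (g : Matrix (Fin 2) (Fin 2) K) (x : Fin 3 → K) :
    D.hypL u w g x = x + (((g 0 0 - 1) * D.f x w - g 0 1 * D.f x u) • u
    + (g 1 0 * D.f x w - (g 1 1 - 1) * D.f x u) • w) := rfl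

theorem hypL_one (u w : Fin 3 → K) : D.hypL u w 1 = 1 := by
  apply LinearMap.ext
  intro x
  rw [hypL_apply]
  simp

theorem hypL_mul {u w : Fin 3 → K} (hu : D.f u u = 0) (hw : D.f w w = 0) (huw : D.f u w = 1)
    (g h : Matrix (Fin 2) (Fin 2) K) : D.hypL u w (g * h) = D.hypL u w g * D.hypL u w h := by
  have hwu : D.f w u = -1 := by rw [D.f_skew u w, huw, map_one]
  apply LinearMap.ext
  intro x
  rw [Module.End.mul_apply, hypL_apply, hypL_apply, hypL_apply]
  simp only [f_add_left, f_smul_left, hu, hw, huw, hwu]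
  simp only [Matrix.mul_apply, Fin.sum_univ_two]
  module

/-- `SL₂(5)` acting on a hyperbolic plane -/
noncomputable def hyp {u w : Fin 3 → K} (hu : D.f u u = 0) (hw : D.f w w = 0) (huw : D.f u w = 1) :
    S →* ((Fin 3 → K) ≃ₗ[K] (Fin 3 → K)) :=
  (LinearMap.GeneralLinearGroup.generalLinearEquiv K (Fin 3 → K)).toMonoidHom.comp
    (MonoidHom.toHomUnits
      { toFun := fun g => D.hypL u w ((g : Matrix (Fin 2) (Fin 2) (ZMod 5)).map cc)
        map_one' := by
          rw [Matrix.SpecialLinearGroup.coe_one, ← hypL_one]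
          congr 1
          simp
        map_mul' := fun g h => by
          rw [Matrix.SpecialLinearGroup.coe_mul, Matrix.map_mul, D.hypL_mul hu hw huw] })

theorem hyp_apply {u w : Fin 3 → K} (hu : D.f u u = 0) (hw : D.f w w = 0) (huw : D.f u w = 1)
    (g : S) (x : Fin 3 → K) :
    D.hyp hu hw huw g x = x + (((cc (g 0 0) - 1) * D.f x w - cc (g 0 1) * D.f x u) • u
    + (cc (g 1 0) * D.f x w - (cc (g 1 1) - 1) * D.f x u) • w) := rfl

/-- isometry group -/
def I : Subgroup ((Fin 3 → K) ≃ₗ[K] (Fin 3 → K)) where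
  carrier := {g | ∀ x y, D.f (g x) (g y) = D.f x y}
  one_mem' := fun x y => rfl
  mul_mem' := by
    intro g h hg hh x y
    show D.f (g (h x)) (g (h y)) = _
    rw [hg, hh]
  inv_mem' := by
    intro g hg x y
    have := hg (g⁻¹ x) (g⁻¹ y)
    rw [← LinearEquiv.mul_apply, ← LinearEquiv.mul_apply] at this
    simpa using this.symm

theorem mem_I {g : (Fin 3 → K) ≃ₗ[K] (Fin 3 → K)} : g ∈ D.I ↔ ∀ x y, D.f (g x) (g y) = D.f x y :=
  Iff.rfl

/-- being the transvection `x ↦ x + a f(x,v) v` -/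
def IsTv (g : (Fin 3 → K) ≃ₗ[K] (Fin 3 → K)) (v : Fin 3 → K) (a : K) : Prop :=
  ∀ x, g x = x + (a * D.f x v) • v

theorem isTv_unique {g g' : (Fin 3 → K) ≃ₗ[K] (Fin 3 → K)} {v : Fin 3 → K} {a : K}
    (h : D.IsTv g v a) (h' : D.IsTv g' v a) : g = g' := by
  ext1 x
  rw [h x, h' x]

theorem isTv_mem_I {g : (Fin 3 → K) ≃ₗ[K] (Fin 3 → K)} {v : Fin 3 → K} {a : K}
    (h : D.IsTv g v a) (hv : D.f v v = 0) (ha : D.σ a = a) : g ∈ D.I := by
  rw [mem_I]
  intro x y
  rw [h x, h y]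
  simp only [f_add_left, f_add_right, f_smul_left, f_smul_right, hv, map_mul, ha, σf]
  ring

theorem isTv_mul {g g' : (Fin 3 → K) ≃ₗ[K] (Fin 3 → K)} {v : Fin 3 → K} {a a' : K}
    (h : D.IsTv g v a) (h' : D.IsTv g' v a') (hv : D.f v v = 0) : D.IsTv (g * g') v (a + a') := by
  intro x
  rw [LinearEquiv.mul_apply, h' x, h]
  simp only [f_add_left, f_smul_left, hv]
  module

theorem isTv_one (v : Fin 3 → K) : D.IsTv 1 v 0 := by
  intro x
  simp

theorem isTv_inv {g : (Fin 3 → K) ≃ₗ[K] (Fin 3 → K)} {v : Fin 3 → K} {a : K}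
    (h : D.IsTv g v a) (hv : D.f v v = 0) : D.IsTv g⁻¹ v (-a) := by
  intro x
  have : g (x + (-a * D.f x v) • v) = x := by
    rw [h]
    simp only [f_add_left, f_smul_left, hv]
    module
  have h2 : g⁻¹ (g (x + (-a * D.f x v) • v)) = g⁻¹ x := by rw [this]
  rw [← LinearEquiv.mul_apply, inv_mul_cancel] at h2
  exact h2.symm

theorem isTv_conj {g t : (Fin 3 → K) ≃ₗ[K] (Fin 3 → K)} {v : Fin 3 → K} {a : K}
    (hg : g ∈ D.I) (h : D.IsTv t v a) : D.IsTv (g * t * g⁻¹) (g v) a := by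
  intro x
  rw [LinearEquiv.mul_apply, LinearEquiv.mul_apply, h, map_add, map_smul]
  have h1 : g (g⁻¹ x) = x := by
    rw [← LinearEquiv.mul_apply, mul_inv_cancel]; rfl
  have h2 : D.f (g⁻¹ x) v = D.f x (g v) := by
    have := hg (g⁻¹ x) v
    rw [h1] at this
    exact this.symm
  rw [h1, h2]

theorem isTv_smul {t : (Fin 3 → K) ≃ₗ[K] (Fin 3 → K)} {v w : Fin 3 → K} {a c : K}
    (h : D.IsTv t w a) (hw : w = c • v) : D.IsTv t v (a * c * D.σ c) := by
  intro x
  rw [h, hw, f_smul_right]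
  module

theorem isTv_uu {u w : Fin 3 → K} (hu : D.f u u = 0) (hw : D.f w w = 0) (huw : D.f u w = 1)
    (a : ZMod 5) : D.IsTv (D.hyp hu hw huw (uu a)) u (-cc a) := by
  intro x
  rw [hyp_apply, val_uu]
  simp

theorem isTv_ll {u w : Fin 3 → K} (hu : D.f u u = 0) (hw : D.f w w = 0) (huw : D.f u w = 1)
    (a : ZMod 5) : D.IsTv (D.hyp hu hw huw (ll a)) w (cc a) := by
  intro x
  rw [hyp_apply, val_ll]
  simp

theorem hyp_mem_I {u w : Fin 3 → K} (hu : D.f u u = 0) (hw : D.f w w = 0) (huw : D.f u w = 1)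
    (g : S) : D.hyp hu hw huw g ∈ D.I := by
  have : D.I.comap (D.hyp hu hw huw) = ⊤ := by
    apply eq_top_of
    · intro a
      exact D.isTv_mem_I (D.isTv_uu hu hw huw a) hu (by rw [map_neg, σ_cc])
    · intro a
      exact D.isTv_mem_I (D.isTv_ll hu hw huw a) hw (by rw [σ_cc])
  have h2 : g ∈ D.I.comap (D.hyp hu hw huw) := by rw [this]; trivial
  exact h2

/-- the three isotropic vectors -/
def v1 : Fin 3 → K := ![1, 0, 0]
def v2 : Fin 3 → K := ![0, 0, 1]
def v3 : Fin 3 → K := ![D.τ, 1, 1]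

theorem f11 : D.f v1 v1 = 0 := by simp [f, v1]
theorem f22 : D.f v2 v2 = 0 := by simp [f, v2]
theorem f33 : D.f D.v3 D.v3 = 0 := by simp [f, v3, D.hσ, ζ]
theorem f12 : D.f v1 v2 = 1 := by simp [f, v1, v2]
theorem f23 : D.f v2 D.v3 = -D.τ' := by simp [f, v2, v3, D.hσ]
theorem f31 : D.f D.v3 v1 = -1 := by simp [f, v3, v1]

/-- `u` and `w` of the three hyperbolic pairs -/
def pu : Fin 3 → (Fin 3 → K) := ![v1, v2, D.v3]
def pw : Fin 3 → (Fin 3 → K) := ![v2, -(D.τ' • D.v3), -v1]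

theorem hpu (i : Fin 3) : D.f (D.pu i) (D.pu i) = 0 := by
  fin_cases i
  · exact D.f11
  · exact D.f22
  · exact D.f33

theorem hpw (i : Fin 3) : D.f (D.pw i) (D.pw i) = 0 := by
  fin_cases i
  · exact D.f22
  · show D.f (-(D.τ' • D.v3)) (-(D.τ' • D.v3)) = 0
    rw [f_neg_left, f_neg_right, f_smul_left, f_smul_right, f33]
    simp
  · show D.f (-v1) (-v1) = 0
    rw [f_neg_left, f_neg_right, f11]
    simp

theorem hpp (i : Fin 3) : D.f (D.pu i) (D.pw i) = 1 := by
  fin_cases i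
  · exact D.f12
  · show D.f v2 (-(D.τ' • D.v3)) = 1
    rw [f_neg_right, f_smul_right, f23, hσ']
    linear_combination D.hτ
  · show D.f D.v3 (-v1) = 1
    rw [f_neg_right, f31]
    simp

/-- the three copies of `SL₂(5)` -/
noncomputable def φ (i : Fin 3) : S →* ((Fin 3 → K) ≃ₗ[K] (Fin 3 → K)) :=
  D.hyp (D.hpu i) (D.hpw i) (D.hpp i)

theorem φ_apply (i : Fin 3) (g : S) (x : Fin 3 → K) :
    D.φ i g x = x + (((cc (g 0 0) - 1) * D.f x (D.pw i) - cc (g 0 1) * D.f x (D.pu i)) • (D.pu i)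
    + (cc (g 1 0) * D.f x (D.pw i) - (cc (g 1 1) - 1) * D.f x (D.pu i)) • (D.pw i)) := rfl

theorem isTv_φuu (i : Fin 3) (a : ZMod 5) : D.IsTv (D.φ i (uu a)) (D.pu i) (-cc a) :=
  D.isTv_uu _ _ _ a

theorem isTv_φll (i : Fin 3) (a : ZMod 5) : D.IsTv (D.φ i (ll a)) (D.pu (i + 1)) (cc a) := by
  have h := D.isTv_ll (D.hpu i) (D.hpw i) (D.hpp i) a
  fin_cases i
  · exact h
  · have := D.isTv_smul (v := D.v3) (c := -D.τ') h (by
      show -(D.τ' • D.v3) = _
      module)
    have e : cc a * -D.τ' * D.σ (-D.τ') = (cc a : K) := by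
      rw [map_neg, hσ']
      linear_combination (cc a) * D.hτ
    rw [e] at this
    exact this
  · have := D.isTv_smul (v := v1) (c := -1) h (by
      show -v1 = _
      module)
    have e : cc a * (-1) * D.σ (-1) = (cc a : K) := by
      rw [map_neg, map_one]
      ring
    rw [e] at this
    exact this

theorem φ_compat (i : Fin 3) (a : ZMod 5) : D.φ i (ll a) = D.φ (i + 1) (uu (-a)) := by
  apply D.isTv_unique (D.isTv_φll i a)
  have := D.isTv_φuu (i + 1) (-a)
  rwa [map_neg, neg_neg] at this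

theorem φ_mem_I (i : Fin 3) (g : S) : D.φ i g ∈ D.I := D.hyp_mem_I _ _ _ g

/-- the group generated -/
noncomputable def H : Subgroup ((Fin 3 → K) ≃ₗ[K] (Fin 3 → K)) :=
  Subgroup.closure (⋃ i, Set.range (D.φ i))

theorem φ_mem_H (i : Fin 3) (g : S) : D.φ i g ∈ D.H :=
  Subgroup.subset_closure (Set.mem_iUnion.2 ⟨i, g, rfl⟩)

theorem H_le_I : D.H ≤ D.I := by
  rw [H, Subgroup.closure_le]
  intro x hx
  obtain ⟨i, g, rfl⟩ := Set.mem_iUnion.1 hx
  exact D.φ_mem_I i g

end Dat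

end Pool.Agent.H101R2.KT
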