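import Mathlib
import Pool.Agent.H101R2.KT.Form

set_option autoImplicit false

namespace Pool.Agent.H101R2.KT

open Matrix

namespace Dat

variable {K : Type} [Field K] [Algebra (ZMod 5) K] (D : Dat K)

theorem f_v1 (x : Fin 3 → K) : D.f x v1 = - x 2 := by simp [f, v1]
theorem f_v2 (x : Fin 3 → K) : D.f x v2 = x 0 := by simp [f, v2]
theorem f_v3 (x : Fin 3 → K) : D.f x D.v3 = x 0 - D.τ' * x 2 + D.ζ * x 1 := by
  simp [f, v3, D.hσ]; ring

theorem n0 (x : Fin 3 → K) : D.φ 0 ww x = ![-x 2, x 1, x 0] := by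
  rw [φ_apply, val_ww]
  have e1 : D.f x (D.pu 0) = - x 2 := D.f_v1 x
  have e2 : D.f x (D.pw 0) = x 0 := D.f_v2 x
  have e3 : D.pu 0 = v1 := rfl
  have e4 : D.pw 0 = v2 := rfl
  rw [e1, e2, e3, e4]
  ext j
  fin_cases j
  · simp [v1, v2]
    ring
  · simp [v1, v2]
  · simp [v1, v2]

theorem n1 (x : Fin 3 → K) : D.φ 1 ww x = ![D.τ * D.f x D.v3, x 1 + D.f x D.v3 - D.τ' * x 0,
    x 2 + x 0 + D.τ * D.f x D.v3 + D.f x D.v3 - D.τ' * x 0] := by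
  rw [φ_apply, val_ww]
  have e1 : D.f x (D.pu 1) = x 0 := D.f_v2 x
  have e2 : D.f x (D.pw 1) = - (D.τ * D.f x D.v3) := by
    show D.f x (-(D.τ' • D.v3)) = _
    rw [f_neg_right, f_smul_right, hσ']
  have e3 : D.pu 1 = v2 := rfl
  have e4 : D.pw 1 = -(D.τ' • D.v3) := rfl
  rw [e1, e2, e3, e4]
  have ht := D.hτ
  generalize D.f x D.v3 = F
  ext j
  fin_cases j
  · simp [v3, v2]
    linear_combination (D.τ * F - x 0) * ht
  · simp [v3, v2]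
    linear_combination F * ht
  · simp [v3, v2]
    linear_combination F * ht

theorem n2 (x : Fin 3 → K) : D.φ 2 ww x = ![x 0 + D.τ * (D.f x D.v3 - x 2) - x 2 - D.f x D.v3,
    x 1 + D.f x D.v3 - x 2, D.f x D.v3] := by
  rw [φ_apply, val_ww]
  have e1 : D.f x (D.pu 2) = D.f x D.v3 := rfl
  have e2 : D.f x (D.pw 2) = x 2 := by
    show D.f x (-v1) = _
    rw [f_neg_right, f_v1, neg_neg]
  have e3 : D.pu 2 = D.v3 := rfl
  have e4 : D.pw 2 = -v1 := rfl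
  rw [e1, e2, e3, e4]
  ext j
  fin_cases j
  · simp [v3, v1]
    ring
  · simp [v3, v1]
    ring
  · simp [v3, v1]

/-- the torus-like element -/
noncomputable def hs : (Fin 3 → K) ≃ₗ[K] (Fin 3 → K) := D.φ 2 ww * (D.φ 1 ww * D.φ 0 ww)

theorem hs_mem : D.hs ∈ D.H :=
  D.H.mul_mem (D.φ_mem_H _ _) (D.H.mul_mem (D.φ_mem_H _ _) (D.φ_mem_H _ _))

theorem hs_v1 : D.hs v1 = D.τ' • v1 := by
  show D.φ 2 ww (D.φ 1 ww (D.φ 0 ww v1)) = _
  rw [n0, n1, n2]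
  have ht := D.hτ
  ext j
  fin_cases j
  · simp [v1, f_v3, ζ]
    grind
  · simp [v1, f_v3, ζ]
    grind
  · simp [v1, f_v3, ζ]
    grind

theorem hs_e1 : ∃ c, D.hs ![0, 1, 0] = ![c, D.τ * D.τ, 0] := by
  refine ⟨D.hs ![0, 1, 0] 0, ?_⟩
  have key : D.hs ![0,1,0] = D.φ 2 ww (D.φ 1 ww (D.φ 0 ww ![0,1,0])) := rfl
  rw [key, n0, n1, n2]
  have ht := D.hτ
  ext j
  fin_cases j
  · simp
  · simp [f_v3, ζ]
    grind
  · simp [f_v3, ζ]
    grind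

theorem hs_e2 : D.hs v2 2 = D.τ' := by
  have key : D.hs v2 = D.φ 2 ww (D.φ 1 ww (D.φ 0 ww v2)) := rfl
  rw [key, n0, n1, n2]
  have ht := D.hτ
  simp [v2, f_v3, ζ]
  grind

theorem negone (i : Fin 3) (x : Fin 3 → K) :
    D.φ i (hh (-1) (-1) (by norm_num)) x =
      x - (2 : K) • (D.f x (D.pw i) • D.pu i - D.f x (D.pu i) • D.pw i) := by
  rw [φ_apply, val_hh]
  simp
  module

end Dat

end Pool.Agent.H101R2.KT
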