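import Mathlib
import Pool.Agent.H101R2.KT.Uni

set_option autoImplicit false

namespace Pool.Agent.H101R2.KT

open Matrix

namespace Dat

variable {K : Type} [Field K] [Algebra (ZMod 5) K] (D : Dat K)


/-- explicit unitriangular map -/
def IsU (g : (Fin 3 → K) ≃ₗ[K] (Fin 3 → K)) (β α : K) : Prop :=
  ∀ x, g x = ![x 0 - D.ζ * D.σ β * x 1 + α * x 2, x 1 + β * x 2, x 2]

theorem isU_unique {g g' : (Fin 3 → K) ≃ₗ[K] (Fin 3 → K)} {β α : K} (h : D.IsU g β α) (h' : D.IsU g' β α) :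
    g = g' := by
  ext1 x
  rw [h x, h' x]

theorem isU_mul {g g' : (Fin 3 → K) ≃ₗ[K] (Fin 3 → K)} {β α β' α' : K} (h : D.IsU g β α) (h' : D.IsU g' β' α') :
    D.IsU (g * g') (β + β') (α + α' - D.ζ * D.σ β * β') := by
  intro x
  rw [LinearEquiv.mul_apply, h' x, h]
  ext j
  fin_cases j
  · simp
    ring
  · simp
    ring
  · simp

theorem isU_one : D.IsU 1 0 0 := by
  intro x
  ext j
  fin_cases j <;> simp

theorem isU_inv {g : (Fin 3 → K) ≃ₗ[K] (Fin 3 → K)} {β α : K} (h : D.IsU g β α) :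
    D.IsU g⁻¹ (-β) (-α - D.ζ * β * D.σ β) := by
  intro x
  have h1 : g (![x 0 - D.ζ * D.σ (-β) * x 1 + (-α - D.ζ * β * D.σ β) * x 2, x 1 + -β * x 2, x 2]) = x := by
    rw [h]
    ext j
    fin_cases j
    · simp
      ring
    · simp
    · simp
  have h2 : g⁻¹ (g (![x 0 - D.ζ * D.σ (-β) * x 1 + (-α - D.ζ * β * D.σ β) * x 2, x 1 + -β * x 2, x 2])) = g⁻¹ x := by
    rw [h1]
  rw [← LinearEquiv.mul_apply, inv_mul_cancel] at h2
  exact h2.symm

theorem isU_v1 {g : (Fin 3 → K) ≃ₗ[K] (Fin 3 → K)} {β α : K} (h : D.IsU g β α) : g v1 = v1 := by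
  rw [h]
  ext j
  fin_cases j <;> simp [v1]

theorem isU_v2 {g : (Fin 3 → K) ≃ₗ[K] (Fin 3 → K)} {β α : K} (h : D.IsU g β α) : g v2 = ![α, β, 1] := by
  rw [h]
  ext j
  fin_cases j <;> simp [v2]

theorem isU_rel {g : (Fin 3 → K) ≃ₗ[K] (Fin 3 → K)} {β α : K} (h : D.IsU g β α) (hg : g ∈ D.I) :
    α - D.σ α + D.ζ * β * D.σ β = 0 := by
  have h1 := hg v2 v2
  rw [D.isU_v2 h, f22] at h1
  simpa [f] using h1

/-- the unipotent radical, intrinsically -/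
def U0 : Subgroup ((Fin 3 → K) ≃ₗ[K] (Fin 3 → K)) where
  carrier := {g | g ∈ D.I ∧ g v1 = v1 ∧ ∀ x, D.f x v1 = 0 → ∃ c : K, g x = x + c • v1}
  one_mem' := ⟨D.I.one_mem, rfl, fun x _ => ⟨0, by simp⟩⟩
  mul_mem' := by
    rintro g h ⟨hg, hg1, hg2⟩ ⟨hh, hh1, hh2⟩
    refine ⟨D.I.mul_mem hg hh, ?_, ?_⟩
    · rw [LinearEquiv.mul_apply, hh1, hg1]
    · intro x hx
      obtain ⟨c, hc⟩ := hh2 x hx
      obtain ⟨d, hd⟩ := hg2 x hx
      refine ⟨d + c, ?_⟩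
      rw [LinearEquiv.mul_apply, hc, map_add, map_smul, hg1, hd]
      module
  inv_mem' := by
    rintro g ⟨hg, hg1, hg2⟩
    have h1 : ∀ x, g⁻¹ (g x) = x := fun x => by
      rw [← LinearEquiv.mul_apply, inv_mul_cancel]; rfl
    have h3 : g⁻¹ v1 = v1 := by
      conv_lhs => rw [← hg1]
      exact h1 _
    refine ⟨D.I.inv_mem hg, h3, ?_⟩
    intro x hx
    obtain ⟨c, hc⟩ := hg2 x hx
    refine ⟨-c, ?_⟩
    have h2 : g⁻¹ (x + c • v1) = x := by rw [← hc]; exact h1 x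
    rw [map_add, map_smul, h3] at h2
    rw [neg_smul, ← sub_eq_add_neg]
    exact eq_sub_of_add_eq h2

theorem mem_U0 {g : (Fin 3 → K) ≃ₗ[K] (Fin 3 → K)} : g ∈ D.U0 ↔ g ∈ D.I ∧ g v1 = v1 ∧
    ∀ x, D.f x v1 = 0 → ∃ c : K, g x = x + c • v1 := Iff.rfl

theorem U0_conj {g h : (Fin 3 → K) ≃ₗ[K] (Fin 3 → K)} {c : K} (hg : g ∈ D.U0) (hh : h ∈ D.I)
    (hc : h v1 = c • v1) : h * g * h⁻¹ ∈ D.U0 := by
  have h1 : ∀ x, h⁻¹ (h x) = x := fun x => by
      rw [← LinearEquiv.mul_apply, inv_mul_cancel]; rfl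
  have h2 : ∀ x, h (h⁻¹ x) = x := fun x => by
      rw [← LinearEquiv.mul_apply, mul_inv_cancel]; rfl
  have hc0 : c ≠ 0 := by
    rintro rfl
    rw [zero_smul] at hc
    have := h1 v1
    rw [hc, map_zero] at this
    have h3 := congrFun this 0
    simp [v1] at h3
  obtain ⟨hg0, hg1, hg2⟩ := hg
  have h3 : h⁻¹ v1 = c⁻¹ • v1 := by
    have := h1 v1
    rw [hc, map_smul] at this
    rw [← this, smul_smul, inv_mul_cancel₀ hc0, one_smul, this]
  refine ⟨D.I.mul_mem (D.I.mul_mem hh hg0) (D.I.inv_mem hh), ?_, ?_⟩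
  · show h (g (h⁻¹ v1)) = v1
    rw [h3, map_smul, hg1, ← h3, h2]
  · intro x hx
    have hx' : D.f (h⁻¹ x) v1 = 0 := by
      have h4 := D.I.inv_mem hh x v1
      rw [h3, f_smul_right, hx] at h4
      rcases mul_eq_zero.1 h4 with h5 | h5
      · rw [map_inv₀, inv_eq_zero, map_eq_zero] at h5
        exact absurd h5 hc0
      · exact h5
    obtain ⟨d, hd⟩ := hg2 _ hx'
    refine ⟨d * c, ?_⟩
    show h (g (h⁻¹ x)) = _
    rw [hd, map_add, h2, map_smul, hc, smul_smul]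

theorem U0_isU {g : (Fin 3 → K) ≃ₗ[K] (Fin 3 → K)} (hg : g ∈ D.U0) : ∃ β α, D.IsU g β α := by
  obtain ⟨hg0, hg1, hg2⟩ := hg
  obtain ⟨c, hc⟩ := hg2 ![0, 1, 0] (by simp [f_v1])
  refine ⟨g v2 1, g v2 0, ?_⟩
  have e2 : g v2 2 = 1 := by
    have := hg0 v2 v1
    rw [hg1, f_v1, f_v1] at this
    simpa [v2] using this
  have ec : c = - (D.ζ * D.σ (g v2 1)) := by
    have := hg0 ![0, 1, 0] v2
    rw [hc] at this
    have e3 : D.σ (g v2 2) = 1 := by rw [e2, map_one]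
    unfold f at this
    rw [e3] at this
    simp [v1] at this
    simp [v2] at this ⊢
    linear_combination this
  intro x
  have hx : x = x 0 • v1 + (x 1 • ![0, 1, 0] + x 2 • v2) := by
    ext j
    fin_cases j <;> simp [v1, v2]
  have : g x = x 0 • v1 + (x 1 • (![0, 1, 0] + c • v1) + x 2 • g v2) := by
    conv_lhs => rw [hx]
    rw [map_add, map_add, map_smul, map_smul, map_smul, hg1, hc]
  rw [this, ec]
  generalize g v2 = w at *
  ext j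
  fin_cases j
  · simp [v1, Matrix.vecHead, Matrix.vecTail]
    ring
  · simp [v1, Matrix.vecHead, Matrix.vecTail]
    ring
  · simp [v1, e2, Matrix.vecHead, Matrix.vecTail]

theorem isU_U0 {g : (Fin 3 → K) ≃ₗ[K] (Fin 3 → K)} {β α : K} (h : D.IsU g β α) (hg : g ∈ D.I) : g ∈ D.U0 := by
  refine ⟨hg, D.isU_v1 h, ?_⟩
  intro x hx
  rw [f_v1, neg_eq_zero] at hx
  refine ⟨- (D.ζ * D.σ β * x 1), ?_⟩
  rw [h]
  ext j
  fin_cases j
  · simp [v1, hx]
    ring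
  · simp [v1, hx]
  · simp [v1]

/-- the additive group of `β`-parameters -/
def B : AddSubgroup K where
  carrier := {β | ∃ g ∈ D.H, ∃ α, D.IsU g β α}
  zero_mem' := ⟨1, D.H.one_mem, 0, D.isU_one⟩
  add_mem' := by
    rintro a b ⟨g, hg, α, h⟩ ⟨g', hg', α', h'⟩
    exact ⟨g * g', D.H.mul_mem hg hg', _, D.isU_mul h h'⟩
  neg_mem' := by
    rintro a ⟨g, hg, α, h⟩
    exact ⟨g⁻¹, D.H.inv_mem hg, _, D.isU_inv h⟩

theorem one_mem_B : (1 : K) ∈ D.B := by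
  have h2 : (2 : K) ∈ D.B := by
    refine ⟨D.φ 2 (hh (-1) (-1) (by norm_num)) * D.φ 0 (hh (-1) (-1) (by norm_num)),
      D.H.mul_mem (D.φ_mem_H _ _) (D.φ_mem_H _ _), -2 * D.ζ, ?_⟩
    intro x
    rw [LinearEquiv.mul_apply, negone, negone]
    have e1 : ∀ x, D.f x (D.pu 0) = - x 2 := fun x => D.f_v1 x
    have e2 : ∀ x, D.f x (D.pw 0) = x 0 := fun x => D.f_v2 x
    have e3 : D.pu 0 = v1 := rfl
    have e4 : D.pw 0 = v2 := rfl
    have e1' : ∀ x, D.f x (D.pu 2) = D.f x D.v3 := fun x => rfl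
    have e2' : ∀ x, D.f x (D.pw 2) = x 2 := by
      intro x
      show D.f x (-v1) = _
      rw [f_neg_right, f_v1, neg_neg]
    have e3' : D.pu 2 = D.v3 := rfl
    have e4' : D.pw 2 = -v1 := rfl
    rw [e1, e2, e1', e2', e3, e4, e3', e4', f_v3]
    have s2 : D.σ 2 = 2 := map_ofNat D.σ 2
    ext j
    fin_cases j
    · simp [v1, v2, v3, s2, ζ, Matrix.vecHead, Matrix.vecTail]
      ring
    · simp [v1, v2, v3, Matrix.vecHead, Matrix.vecTail]
      ring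
    · simp [v1, v2, v3, Matrix.vecHead, Matrix.vecTail]
      ring
  have h6 : (2 : K) + 2 + 2 ∈ D.B := D.B.add_mem (D.B.add_mem h2 h2) h2
  have : (2 : K) + 2 + 2 = 1 := by
    linear_combination five (K := K)
  rwa [this] at h6

theorem tau_mem_B {β : K} (h : β ∈ D.B) : D.τ ^ 3 * β ∈ D.B := by
  obtain ⟨g, hg, α, hU⟩ := h
  have hgI : g ∈ D.I := D.H_le_I hg
  have h1 : D.hs * g * D.hs⁻¹ ∈ D.U0 :=
    D.U0_conj (D.isU_U0 hU hgI) (D.H_le_I D.hs_mem) D.hs_v1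
  obtain ⟨β', α', hU'⟩ := D.U0_isU h1
  have hmem : D.hs * g * D.hs⁻¹ ∈ D.H := D.H.mul_mem (D.H.mul_mem D.hs_mem hg) (D.H.inv_mem D.hs_mem)
  have e : (D.hs * g * D.hs⁻¹) (D.hs v2) = D.hs (g v2) := by
    show D.hs (g (D.hs⁻¹ (D.hs v2))) = _
    rw [← LinearEquiv.mul_apply D.hs⁻¹, inv_mul_cancel]
    rfl
  rw [hU', D.isU_v2 hU] at e
  have hx : (![α, β, 1] : (Fin 3 → K)) = α • v1 + (β • ![0, 1, 0] + v2) := by
    ext j
    fin_cases j <;> simp [v1, v2]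
  obtain ⟨c, hc⟩ := D.hs_e1
  rw [hx, map_add, map_add, map_smul, map_smul, hs_v1, hc, hs_e2] at e
  have e1 := congrFun e 1
  generalize D.hs v2 = w at e1
  simp [v1, Matrix.vecHead, Matrix.vecTail] at e1
  have e2 : β' * D.τ' = β * (D.τ * D.τ) := by
    linear_combination e1
  have e3 : β' = D.τ ^ 3 * β := by
    linear_combination D.τ * e2 - β' * D.hτ
  rw [← e3]
  exact ⟨_, hmem, _, hU'⟩

/-- generation hypothesis -/
def Gen : Prop := ∀ B : AddSubgroup K, 1 ∈ B → (∀ x ∈ B, D.τ ^ 3 * x ∈ B) → B = ⊤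

theorem B_top (hg : D.Gen) : D.B = ⊤ := hg _ D.one_mem_B fun _ => D.tau_mem_B

theorem center_mem (hg : D.Gen) {a : K} (ha : D.σ a = a) : ∃ g ∈ D.H, D.IsU g 0 a := by
  have hall : ∀ β, β ∈ D.B := fun β => by rw [D.B_top hg]; trivial
  have h2 := two_ne (K := K)
  have hz := D.ζ_ne
  obtain ⟨g, hgH, α, hU⟩ := hall (a / (2 * D.ζ))
  obtain ⟨g1, hgH1, α1, hU1⟩ := hall 1
  have hmul := D.isU_mul hU hU1
  have hmul' := D.isU_mul hU1 hU
  have hinv := D.isU_inv hmul'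
  refine ⟨g * g1 * (g1 * g)⁻¹, D.H.mul_mem (D.H.mul_mem hgH hgH1)
    (D.H.inv_mem (D.H.mul_mem hgH1 hgH)), ?_⟩
  have := D.isU_mul hmul hinv
  convert this using 1
  · ring
  · have s2 : D.σ 2 = 2 := map_ofNat D.σ 2
    simp only [map_add, map_one, map_div₀, map_mul, s2, D.σζ, ha]
    field_simp
    ring

theorem full_U (hg : D.Gen) {β α : K} (h : α - D.σ α + D.ζ * β * D.σ β = 0) :
    ∃ g ∈ D.H, D.IsU g β α := by
  have hall : ∀ β, β ∈ D.B := fun β => by rw [D.B_top hg]; trivial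
  obtain ⟨g, hgH, α', hU⟩ := hall β
  have hr := D.isU_rel hU (D.H_le_I hgH)
  obtain ⟨z, hz, hzU⟩ := D.center_mem hg (a := α - α') (by rw [map_sub]; linear_combination hr - h)
  refine ⟨z * g, D.H.mul_mem hz hgH, ?_⟩
  have := D.isU_mul hzU hU
  convert this using 1
  · ring
  · rw [map_zero]
    ring

end Dat

end Pool.Agent.H101R2.KT
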