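import Mathlib
import Pool.Agent.H101R2.KT.Uni2

set_option autoImplicit false
set_option linter.unusedSectionVars false

namespace Pool.Agent.H101R2.KT

open Matrix
open scoped LinearAlgebra.Projectivization Pointwise

namespace Dat

variable {K : Type} [Field K] [Algebra (ZMod 5) K] (D : Dat K)


theorem v1_ne : (v1 : (Fin 3 → K)) ≠ 0 := fun h => by simpa [v1] using congrFun h 0
theorem v2_ne : (v2 : (Fin 3 → K)) ≠ 0 := fun h => by simpa [v2] using congrFun h 2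

def p1 : ℙ K (Fin 3 → K) := Projectivization.mk K (v1 : (Fin 3 → K)) v1_ne
def p2 : ℙ K (Fin 3 → K) := Projectivization.mk K (v2 : (Fin 3 → K)) v2_ne

/-- the orbit -/
abbrev X : Type := MulAction.orbit D.H (p1 (K := K))

theorem smul_mk_A (g : (Fin 3 → K) ≃ₗ[K] (Fin 3 → K)) {v : (Fin 3 → K)} (hv : v ≠ 0) :
    g • Projectivization.mk K v hv = Projectivization.mk K (g v) (by
      intro h; exact hv ((map_eq_zero_iff g g.injective).1 h)) := rfl

theorem smul_X (g : D.H) (x : D.X) : (g • x).1 = (g : (Fin 3 → K) ≃ₗ[K] (Fin 3 → K)) • x.1 := rfl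

theorem X_rep (x : D.X) : ∃ (v : (Fin 3 → K)) (hv : v ≠ 0), x.1 = Projectivization.mk K v hv ∧ D.f v v = 0 := by
  obtain ⟨y, ⟨g, rfl⟩⟩ := x
  refine ⟨(g : (Fin 3 → K) ≃ₗ[K] (Fin 3 → K)) v1, ?_, rfl, ?_⟩
  · intro h
    exact v1_ne ((map_eq_zero_iff _ (g : (Fin 3 → K) ≃ₗ[K] (Fin 3 → K)).injective).1 h)
  · rw [D.H_le_I g.2, f11]

def x1 : D.X := ⟨p1, MulAction.mem_orbit_self _⟩

theorem vne (α β : K) : (![α, β, 1] : (Fin 3 → K)) ≠ 0 := fun h => by simpa using congrFun h 2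

theorem X_affine (x : D.X) (hx : x ≠ D.x1) : ∃ β α, α - D.σ α + D.ζ * β * D.σ β = 0 ∧
    x.1 = Projectivization.mk K ![α, β, 1] (vne α β) := by
  obtain ⟨v, hv, hxv, hf⟩ := D.X_rep x
  by_cases h2 : v 2 = 0
  · exfalso
    have h1 : v 1 = 0 := by
      simp only [f, h2, map_zero, mul_zero, zero_mul, sub_zero, zero_add] at hf
      rcases mul_eq_zero.1 hf with h | h
      · rcases mul_eq_zero.1 h with h | h
        · exact absurd h D.ζ_ne
        · exact h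
      · exact (map_eq_zero D.σ).1 h
    apply hx
    apply Subtype.ext
    rw [hxv]
    show _ = Projectivization.mk K (v1 : (Fin 3 → K)) v1_ne
    rw [Projectivization.mk_eq_mk_iff']
    refine ⟨v 0, ?_⟩
    ext j
    fin_cases j
    · simp [v1]
    · simp [v1, h1]
    · simp [v1, h2]
  · have e : v = v 2 • (![v 0 / v 2, v 1 / v 2, 1] : (Fin 3 → K)) := by
      ext j
      fin_cases j
      · simp
        field_simp
      · simp
        field_simp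
      · simp
    refine ⟨v 1 / v 2, v 0 / v 2, ?_, ?_⟩
    · rw [e, f_smul_left, f_smul_right] at hf
      have h3 : D.σ (v 2) ≠ 0 := fun h => h2 ((map_eq_zero D.σ).1 h)
      have h4 := (mul_eq_zero.1 ((mul_eq_zero.1 hf).resolve_left h2)).resolve_left h3
      simpa [f] using h4
    · rw [hxv, Projectivization.mk_eq_mk_iff']
      exact ⟨v 2, e.symm⟩

theorem hs0_mem : (⟨D.φ 0 ww, D.φ_mem_H _ _⟩ : D.H) • (p1 (K := K)) = p2 := by
  show D.φ 0 ww • (Projectivization.mk K (v1 : (Fin 3 → K)) v1_ne) = Projectivization.mk K (v2 : (Fin 3 → K)) v2_ne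
  rw [smul_mk_A, Projectivization.mk_eq_mk_iff']
  refine ⟨1, ?_⟩
  rw [n0]
  ext j
  fin_cases j <;> simp [v1, v2]

def x2 : D.X := ⟨p2, ⟨⟨D.φ 0 ww, D.φ_mem_H _ _⟩, D.hs0_mem⟩⟩

theorem p3_mem : ∃ g : D.H, ∃ h, g • (p1 (K := K)) = Projectivization.mk K D.v3 h := by
  have hv3 : D.v3 ≠ 0 := fun h => by simpa [v3] using congrFun h 2
  refine ⟨(⟨D.φ 2 ww, D.φ_mem_H _ _⟩ : D.H)⁻¹, hv3, ?_⟩
  rw [inv_smul_eq_iff]
  show Projectivization.mk K (v1 : (Fin 3 → K)) v1_ne = D.φ 2 ww • (Projectivization.mk K D.v3 hv3)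
  rw [smul_mk_A, Projectivization.mk_eq_mk_iff']
  refine ⟨-1, ?_⟩
  rw [n2, f33]
  ext j
  fin_cases j
  · simp [v3, v1]
  · simp [v3, v1]
  · simp [v3, v1]

theorem U_trans (hg : D.Gen) (x : D.X) (hx : x ≠ D.x1) :
    ∃ u : D.H, (u : (Fin 3 → K) ≃ₗ[K] (Fin 3 → K)) ∈ D.U0 ∧ u • D.x2 = x := by
  obtain ⟨β, α, h, hx'⟩ := D.X_affine x hx
  obtain ⟨g, hgH, hU⟩ := D.full_U hg h
  refine ⟨⟨g, hgH⟩, D.isU_U0 hU (D.H_le_I hgH), ?_⟩
  apply Subtype.ext
  rw [hx']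
  show g • (Projectivization.mk K (v2 : (Fin 3 → K)) v2_ne) = _
  rw [smul_mk_A, Projectivization.mk_eq_mk_iff']
  exact ⟨1, by rw [one_smul, D.isU_v2 hU]⟩

theorem U_fix (u : D.H) (hu : (u : (Fin 3 → K) ≃ₗ[K] (Fin 3 → K)) ∈ D.U0) : u • D.x1 = D.x1 := by
  apply Subtype.ext
  show (u : (Fin 3 → K) ≃ₗ[K] (Fin 3 → K)) • (Projectivization.mk K (v1 : (Fin 3 → K)) v1_ne) = Projectivization.mk K (v1 : (Fin 3 → K)) v1_ne
  rw [smul_mk_A, Projectivization.mk_eq_mk_iff']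
  exact ⟨1, by rw [one_smul, hu.2.1]⟩

theorem U_free (u : D.H) (hu : (u : (Fin 3 → K) ≃ₗ[K] (Fin 3 → K)) ∈ D.U0) (x : D.X) (hx : x ≠ D.x1)
    (h : u • x = x) : u = 1 := by
  obtain ⟨β, α, h, hx'⟩ := D.X_affine x hx
  obtain ⟨β', α', hU⟩ := D.U0_isU hu
  have h1 : (u : (Fin 3 → K) ≃ₗ[K] (Fin 3 → K)) • x.1 = x.1 := by
    rw [← smul_X, ‹u • x = x›]
  rw [hx', smul_mk_A, Projectivization.mk_eq_mk_iff'] at h1
  obtain ⟨c, hc⟩ := h1
  rw [hU] at hc
  have c2 := congrFun hc 2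
  have c1 := congrFun hc 1
  have c0 := congrFun hc 0
  simp at c2 c1 c0
  subst c2
  have hb : β' = 0 := by linear_combination -c1
  subst hb
  have ha : α' = 0 := by
    rw [map_zero] at c0
    linear_combination -c0
  subst ha
  apply Subtype.ext
  exact D.isU_unique hU D.isU_one

theorem stab_conj (h : D.H) (hh : h • D.x1 = D.x1) (u : D.H) (hu : (u : (Fin 3 → K) ≃ₗ[K] (Fin 3 → K)) ∈ D.U0) :
    ((h * u * h⁻¹ : D.H) : (Fin 3 → K) ≃ₗ[K] (Fin 3 → K)) ∈ D.U0 := by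
  have h1 : (h : (Fin 3 → K) ≃ₗ[K] (Fin 3 → K)) • (Projectivization.mk K (v1 : (Fin 3 → K)) v1_ne) = Projectivization.mk K (v1 : (Fin 3 → K)) v1_ne := by
    have := congrArg Subtype.val hh
    exact this
  rw [smul_mk_A, Projectivization.mk_eq_mk_iff'] at h1
  obtain ⟨c, hc⟩ := h1
  exact D.U0_conj hu (D.H_le_I h.2) hc.symm

theorem two_trans (hg : D.Gen) (a b c d : D.X) (hab : a ≠ b) (hcd : c ≠ d) :
    ∃ g : D.H, g • a = c ∧ g • b = d := by
  have key : ∀ a b : D.X, a ≠ b → ∃ g : D.H, g • D.x1 = a ∧ g • D.x2 = b := by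
    intro a b hab
    obtain ⟨g, hga⟩ := MulAction.exists_smul_eq D.H D.x1 a
    have : g⁻¹ • b ≠ D.x1 := by
      intro h
      rw [inv_smul_eq_iff, hga] at h
      exact hab h.symm
    obtain ⟨u, hu, hub⟩ := D.U_trans hg _ this
    refine ⟨g * u, ?_, ?_⟩
    · rw [mul_smul, D.U_fix u hu, hga]
    · rw [mul_smul, hub, smul_inv_smul]
  obtain ⟨g, hga, hgb⟩ := key a b hab
  obtain ⟨h, hhc, hhd⟩ := key c d hcd
  refine ⟨h * g⁻¹, ?_, ?_⟩
  · rw [mul_smul, ← hga, inv_smul_smul, hhc]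
  · rw [mul_smul, ← hgb, inv_smul_smul, hhd]

theorem x1_ne_x2 : D.x1 ≠ D.x2 := by
  intro h
  have h1 : Projectivization.mk K (v1 : (Fin 3 → K)) v1_ne = Projectivization.mk K (v2 : (Fin 3 → K)) v2_ne :=
    congrArg Subtype.val h
  rw [Projectivization.mk_eq_mk_iff'] at h1
  obtain ⟨c, hc⟩ := h1
  simpa [v1, v2] using congrFun hc 0

end Dat

end Pool.Agent.H101R2.KT
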