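import Mathlib
import Pool.Agent.H101R2.KT.Proj

set_option autoImplicit false
set_option linter.unusedSectionVars false

namespace Pool.Agent.H101R2.KT

open Matrix
open scoped LinearAlgebra.Projectivization Pointwise

theorem gen_top {G : Type*} [Group G] (φ : Fin 3 → (S →* G))
    (ψ : Fin 3 → (S →* (Subgroup.closure (⋃ i, Set.range (φ i)))))
    (h : ∀ i g, (ψ i g : G) = φ i g) :
    Subgroup.closure (⋃ i, Set.range (ψ i)) = ⊤ := by
  rw [← Subgroup.closure_closure_coe_preimage]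
  congr 1
  ext x
  simp only [Set.mem_iUnion, Set.mem_range, Set.mem_preimage]
  constructor
  · rintro ⟨i, g, rfl⟩
    exact ⟨i, g, (h i g).symm⟩
  · rintro ⟨i, g, hg⟩
    exact ⟨i, g, Subtype.ext ((h i g).trans hg)⟩

theorem perfect_of {G : Type*} [Group G] (ψ : Fin 3 → (S →* G))
    (h : Subgroup.closure (⋃ i, Set.range (ψ i)) = ⊤) : commutator G = ⊤ := by
  rw [eq_top_iff, ← h, Subgroup.closure_le]
  intro x hx
  obtain ⟨i, g, rfl⟩ := Set.mem_iUnion.1 hx
  have h1 : Subgroup.map (ψ i) (commutator S) ≤ commutator G := by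
    rw [commutator_def, commutator_def, Subgroup.map_commutator]
    exact Subgroup.commutator_mono le_top le_top
  apply h1
  rw [commutator_S]
  exact ⟨g, trivial, rfl⟩

namespace Dat

variable {K : Type} [Field K] [Algebra (ZMod 5) K] (D : Dat K)


noncomputable def ψ (i : Fin 3) : S →* D.H := (D.φ i).codRestrict D.H (D.φ_mem_H i)

theorem ψ_val (i : Fin 3) (g : S) : ((D.ψ i g : D.H) : (Fin 3 → K) ≃ₗ[K] (Fin 3 → K)) = D.φ i g := rfl

theorem ψ_top : Subgroup.closure (⋃ i, Set.range (D.ψ i)) = ⊤ :=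
  gen_top D.φ D.ψ fun _ _ => rfl

theorem H_perfect : commutator D.H = ⊤ := perfect_of D.ψ D.ψ_top

/-- root groups -/
def T (x : D.X) : Subgroup D.H where
  carrier := {g | ∃ (v : (Fin 3 → K)) (hv : v ≠ 0), x.1 = Projectivization.mk K v hv ∧ D.f v v = 0 ∧
    ∃ a, D.σ a = a ∧ D.IsTv (g : (Fin 3 → K) ≃ₗ[K] (Fin 3 → K)) v a}
  one_mem' := by
    obtain ⟨v, hv, hx, hf⟩ := D.X_rep x
    exact ⟨v, hv, hx, hf, 0, map_zero _, D.isTv_one v⟩
  mul_mem' := by
    rintro g g' ⟨v, hv, hx, hf, a, ha, h⟩ ⟨v', hv', hx', -, a', ha', h'⟩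
    refine ⟨v, hv, hx, hf, ?_⟩
    have : Projectivization.mk K v' hv' = Projectivization.mk K v hv := by rw [← hx, ← hx']
    rw [Projectivization.mk_eq_mk_iff'] at this
    obtain ⟨c, hc⟩ := this
    refine ⟨a + a' * c * D.σ c, ?_, D.isTv_mul h (D.isTv_smul h' hc.symm) hf⟩
    simp only [map_add, map_mul, ha, ha', D.σσ]
    ring
  inv_mem' := by
    rintro g ⟨v, hv, hx, hf, a, ha, h⟩
    exact ⟨v, hv, hx, hf, -a, by rw [map_neg, ha], D.isTv_inv h hf⟩

theorem mem_T {x : D.X} {g : D.H} : g ∈ D.T x ↔ ∃ (v : (Fin 3 → K)) (hv : v ≠ 0),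
    x.1 = Projectivization.mk K v hv ∧ D.f v v = 0 ∧
    ∃ a, D.σ a = a ∧ D.IsTv (g : (Fin 3 → K) ≃ₗ[K] (Fin 3 → K)) v a := Iff.rfl

theorem T_conj {x : D.X} {g t : D.H} (ht : t ∈ D.T x) : g * t * g⁻¹ ∈ D.T (g • x) := by
  obtain ⟨v, hv, hx, hf, a, ha, h⟩ := ht
  have hgv : (g : (Fin 3 → K) ≃ₗ[K] (Fin 3 → K)) v ≠ 0 := by
    intro h; exact hv ((map_eq_zero_iff _ (g : (Fin 3 → K) ≃ₗ[K] (Fin 3 → K)).injective).1 h)
  refine ⟨(g : (Fin 3 → K) ≃ₗ[K] (Fin 3 → K)) v, hgv, ?_, ?_, a, ha, ?_⟩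
  · rw [smul_X, hx, smul_mk_A]
  · rw [D.H_le_I g.2, hf]
  · exact D.isTv_conj (D.H_le_I g.2) h

theorem pt (i : Fin 3) : ∃ (x : D.X) (h : D.pu i ≠ 0), x.1 = Projectivization.mk K (D.pu i) h := by
  fin_cases i
  · exact ⟨D.x1, v1_ne, rfl⟩
  · exact ⟨D.x2, v2_ne, rfl⟩
  · obtain ⟨g, h, hg⟩ := D.p3_mem
    exact ⟨⟨_, g, hg⟩, h, rfl⟩

/-- the Iwasawa structure -/
def iwa : MulAction.IwasawaStructure D.H D.X where
  T := D.T
  is_comm x := by
    refine ⟨⟨?_⟩⟩
    rintro ⟨g, v, hv, hx, hf, a, ha, h⟩ ⟨g', v', hv', hx', -, a', ha', h'⟩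
    have : Projectivization.mk K v' hv' = Projectivization.mk K v hv := by rw [← hx, ← hx']
    rw [Projectivization.mk_eq_mk_iff'] at this
    obtain ⟨c, hc⟩ := this
    have h1 := D.isTv_smul h' hc.symm
    have h2 := D.isTv_mul h h1 hf
    have h3 := D.isTv_mul h1 h hf
    rw [add_comm] at h3
    apply Subtype.ext
    apply Subtype.ext
    exact D.isTv_unique h2 h3
  is_conj g x := by
    apply le_antisymm
    · intro k hk
      rw [Subgroup.mem_pointwise_smul_iff_inv_smul_mem]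
      have := D.T_conj (g := g⁻¹) hk
      rw [inv_smul_smul] at this
      convert this using 1
      simp [MulAut.smul_def]
    · intro k hk
      rw [Subgroup.mem_pointwise_smul_iff_inv_smul_mem] at hk
      have := D.T_conj (g := g) hk
      convert this using 1
      simp [MulAut.smul_def, mul_assoc]
  is_generator := by
    rw [eq_top_iff, ← D.ψ_top, Subgroup.closure_le]
    intro x hx
    obtain ⟨i, g, rfl⟩ := Set.mem_iUnion.1 hx
    have h1 : (iSup D.T).comap (D.ψ i) = ⊤ := by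
      apply eq_top_of
      · intro a
        obtain ⟨x, h, hx⟩ := D.pt i
        apply (le_iSup D.T x)
        exact ⟨D.pu i, h, hx, D.hpu i, _, by rw [map_neg, σ_cc], D.isTv_φuu i a⟩
      · intro a
        obtain ⟨x, h, hx⟩ := D.pt (i + 1)
        apply (le_iSup D.T x)
        exact ⟨D.pu (i + 1), h, hx, D.hpu (i + 1), _, by rw [σ_cc], D.isTv_φll i a⟩
    have h2 : g ∈ (iSup D.T).comap (D.ψ i) := by rw [h1]; trivial
    exact h2

theorem twoPre (hg : D.Gen) : MulAction.IsMultiplyPretransitive D.H D.X 2 := by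
  rw [MulAction.is_two_pretransitive_iff]
  intro a b c d hab hcd
  exact D.two_trans hg a b c d hab hcd

/-- the quotient group -/
abbrev Q : Type := (MulAction.toPermHom D.H D.X).range

theorem Q_simple (hg : D.Gen) : IsSimpleGroup D.Q := by
  haveI := D.twoPre hg
  haveI : MulAction.IsPreprimitive D.H D.X :=
    MulAction.isPreprimitive_of_is_two_pretransitive inferInstance
  haveI : Nontrivial D.Q := by
    obtain ⟨g, h⟩ := MulAction.exists_smul_eq D.H D.x1 D.x2
    refine ⟨1, ⟨_, ⟨g, rfl⟩⟩, ?_⟩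
    intro h1
    have h2 := congrArg (fun q : D.Q => q.1 D.x1) h1
    have h3 : D.x1 = g • D.x1 := h2
    exact D.x1_ne_x2 (h3.trans h)
  refine ⟨?_⟩
  intro N hN
  by_cases hbot : N = ⊥
  · exact Or.inl hbot
  · right
    let r := (MulAction.toPermHom D.H D.X).rangeRestrict
    have hr : Function.Surjective r := MonoidHom.rangeRestrict_surjective _
    have key : commutator D.H ≤ N.comap r := by
      apply D.iwa.commutator_le
      intro hfix
      apply hbot
      rw [Subgroup.eq_bot_iff_forall]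
      intro q hq
      obtain ⟨h, rfl⟩ := hr q
      apply Subtype.ext
      apply Equiv.ext
      intro x
      have : x ∈ MulAction.fixedPoints (N.comap r) D.X := by rw [hfix]; trivial
      exact this ⟨h, hq⟩
    rw [D.H_perfect, top_le_iff] at key
    rw [eq_top_iff]
    intro q _
    obtain ⟨h, rfl⟩ := hr q
    have : h ∈ N.comap r := by rw [key]; trivial
    exact this

theorem exists_pts (hg : D.Gen) : ∃ q : K → D.H, Function.Injective (fun β => q β • D.x2) := by
  have hall : ∀ β, β ∈ D.B := fun β => by rw [D.B_top hg]; trivial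
  choose g hgH α hU using hall
  refine ⟨fun β => ⟨g β, hgH β⟩, ?_⟩
  have key : ∀ β, ((⟨g β, hgH β⟩ : D.H) • D.x2).1 = Projectivization.mk K ![α β, β, 1] (vne _ _) := by
    intro β
    show g β • (Projectivization.mk K (v2 : (Fin 3 → K)) v2_ne) = _
    rw [smul_mk_A, Projectivization.mk_eq_mk_iff']
    exact ⟨1, by rw [one_smul, D.isU_v2 (hU β)]⟩
  intro β β' h
  have h1 := congrArg Subtype.val h
  simp only [key] at h1
  rw [Projectivization.mk_eq_mk_iff'] at h1
  obtain ⟨c, hc⟩ := h1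
  have c2 := congrFun hc 2
  have c1 := congrFun hc 1
  simp at c2 c1
  rw [c2, one_mul] at c1
  exact c1.symm

theorem main [Finite K] (hg : D.Gen) : ∃ (Q : Type) (_ : Group Q), ∃ f : D.H →* Q,
    Function.Surjective f ∧ Nat.card K ≤ Nat.card Q ∧ Finite Q ∧ IsSimpleGroup Q ∧
          ∃ (X : Type) (φ : Q →* Equiv.Perm X), Finite X ∧ 3 ≤ Nat.card X ∧
            (∀ a b c d : X, a ≠ b → c ≠ d → ∃ g : Q, φ g a = c ∧ φ g b = d) ∧
            ∃ (x : X) (U : Subgroup Q),
              (∀ u ∈ U, φ u x = x) ∧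
              (∀ u ∈ U, ∀ h : Q, φ h x = x → h * u * h⁻¹ ∈ U) ∧
              ∀ y z : X, y ≠ x → z ≠ x → ∃! u : Q, u ∈ U ∧ φ u y = z := by
  haveI : Finite (ℙ K (Fin 3 → K)) := inferInstance
  haveI : Finite D.X := inferInstance
  haveI : Finite D.Q := inferInstance
  obtain ⟨q, hq⟩ := D.exists_pts hg
  let r : D.H →* D.Q := (MulAction.toPermHom D.H D.X).rangeRestrict
  have hr : Function.Surjective r := MonoidHom.rangeRestrict_surjective _
  have hr' : ∀ (h : D.H) (x : D.X), (r h).1 x = h • x := fun h x => rfl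
  refine ⟨D.Q, inferInstance, r, hr, ?_, inferInstance, D.Q_simple hg, D.X,
    Subgroup.subtype _, inferInstance, ?_, ?_, D.x1, (D.U0.subgroupOf D.H).map r, ?_, ?_, ?_⟩
  · apply Nat.card_le_card_of_injective (fun β => r (q β))
    intro β β' h
    apply hq
    show q β • D.x2 = q β' • D.x2
    rw [← hr', ← hr']
    exact congrArg (fun s : D.Q => s.1 D.x2) h
  · have h1 : Nat.card (ZMod 5) ≤ Nat.card K :=
      Nat.card_le_card_of_injective (algebraMap (ZMod 5) K) (algebraMap (ZMod 5) K).injective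
    have h2 : Nat.card K ≤ Nat.card D.X := Nat.card_le_card_of_injective _ hq
    have h3 : Nat.card (ZMod 5) = 5 := by simp
    omega
  · intro a b c d hab hcd
    obtain ⟨g, h1, h2⟩ := D.two_trans hg a b c d hab hcd
    exact ⟨r g, h1, h2⟩
  · rintro u ⟨u', hu', rfl⟩
    exact D.U_fix u' hu'
  · rintro u ⟨u', hu', rfl⟩ h hh
    obtain ⟨h', rfl⟩ := hr h
    refine ⟨h' * u' * h'⁻¹, D.stab_conj h' hh u' hu', ?_⟩
    rw [map_mul, map_mul, map_inv]
  · intro y z hy hz
    obtain ⟨u, hu, huy⟩ := D.U_trans hg y hy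
    obtain ⟨u', hu', huz⟩ := D.U_trans hg z hz
    refine ⟨r (u' * u⁻¹), ⟨⟨u' * u⁻¹, (D.U0.subgroupOf D.H).mul_mem hu' ((D.U0.subgroupOf D.H).inv_mem hu), rfl⟩, ?_⟩, ?_⟩
    · show (u' * u⁻¹) • y = z
      rw [mul_smul, ← huy, inv_smul_smul, huz]
    · rintro _ ⟨⟨w, hw, rfl⟩, hwy⟩
      have hwy' : w • y = z := hwy
      have hfix : (u' * u⁻¹)⁻¹ * w = 1 := by
        apply D.U_free _ ?_ y hy
        · rw [mul_smul, hwy', inv_smul_eq_iff, mul_smul, ← huy, inv_smul_smul, huz]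
        · exact (D.U0.subgroupOf D.H).mul_mem ((D.U0.subgroupOf D.H).inv_mem
            ((D.U0.subgroupOf D.H).mul_mem hu' ((D.U0.subgroupOf D.H).inv_mem hu))) hw
      rw [inv_mul_eq_one.1 hfix]

end Dat

end Pool.Agent.H101R2.KT
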