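import Mathlib
import Pool.Agent.H101R2.KT.Simple

set_option autoImplicit false
set_option linter.unusedSectionVars false

namespace Pool.Agent.H101R2.KT

section

variable {K : Type} [Field K] [Finite K]

/-- the multiplier field of an additive subgroup -/
def mult (B : AddSubgroup K) : Subfield K where
  carrier := {x | ∀ b ∈ B, x * b ∈ B}
  one_mem' := fun b hb => by rwa [one_mul]
  mul_mem' := by
    intro x y hx hy b hb
    rw [mul_assoc]
    exact hx _ (hy _ hb)
  zero_mem' := fun b _ => by rw [zero_mul]; exact B.zero_mem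
  add_mem' := by
    intro x y hx hy b hb
    rw [add_mul]
    exact B.add_mem (hx _ hb) (hy _ hb)
  neg_mem' := by
    intro x hx b hb
    rw [neg_mul]
    exact B.neg_mem (hx _ hb)
  inv_mem' := by
    intro x hx b hb
    by_cases h0 : x = 0
    · rw [h0, inv_zero, zero_mul]; exact B.zero_mem
    · obtain ⟨k, hk, hk1⟩ : ∃ k, 0 < k ∧ x ^ k = 1 := by
        have := isOfFinOrder_of_finite (Units.mk0 x h0)
        obtain ⟨k, hk, h⟩ := isOfFinOrder_iff_pow_eq_one.1 this
        refine ⟨k, hk, ?_⟩
        have := congrArg Units.val h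
        simpa using this
      have hx1 : x⁻¹ = x ^ (k - 1) := by
        rw [eq_comm, ← mul_left_inj' h0, ← pow_succ, Nat.sub_add_cancel hk, hk1,
          inv_mul_cancel₀ h0]
      rw [hx1]
      have : ∀ j : ℕ, ∀ b ∈ B, x ^ j * b ∈ B := by
        intro j
        induction j with
        | zero => intro b hb; rwa [pow_zero, one_mul]
        | succ j ih =>
          intro b hb
          rw [pow_succ, mul_assoc]
          exact ih _ (hx _ hb)
      exact this _ b hb

theorem gen_of_order (Q : ℕ) (hQ : 0 < Q) (hcard : Nat.card K = Q ^ 2) (θ : K)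
    (hθ : orderOf θ = Q + 1) (B : AddSubgroup K) (h1 : 1 ∈ B) (hB : ∀ x ∈ B, θ * x ∈ B) :
    B = ⊤ := by
  have hθP : θ ∈ mult B := hB
  have hP : Q + 1 ≤ Nat.card (mult B) := by
    have hinj : Function.Injective (fun k : Fin (Q + 1) => (⟨θ ^ (k : ℕ), pow_mem hθP _⟩ : mult B)) := by
      intro i j hij
      have := congrArg Subtype.val hij
      simp only at this
      apply Fin.ext
      exact pow_injOn_Iio_orderOf (by rw [hθ]; exact i.2) (by rw [hθ]; exact j.2) this
    have := Nat.card_le_card_of_injective _ hinj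
    simpa using this
  have hr := Module.natCard_eq_pow_finrank (K := mult B) (V := K)
  have hr1 : Module.finrank (mult B) K = 1 := by
    have h2 : Module.finrank (mult B) K < 2 := by
      by_contra hcon
      push Not at hcon
      have h3 : (Q + 1) ^ 2 ≤ Nat.card K := by
        rw [hr]
        calc (Q + 1) ^ 2 ≤ (Nat.card (mult B)) ^ 2 := Nat.pow_le_pow_left hP 2
          _ ≤ _ := Nat.pow_le_pow_right (by omega) hcon
      rw [hcard] at h3
      nlinarith
    have h0 : Module.finrank (mult B) K ≠ 0 := by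
      have := Module.finrank_pos (R := mult B) (M := K)
      omega
    omega
  rw [hr1, pow_one] at hr
  have htop : ∀ x : K, x ∈ mult B := by
    have hsub : (mult B : Set K) = Set.univ := by
      apply Set.eq_of_subset_of_ncard_le (Set.subset_univ _)
      rw [Set.ncard_univ, hr]
      exact le_of_eq rfl
    intro x
    have : x ∈ (mult B : Set K) := by rw [hsub]; trivial
    exact this
  rw [eq_top_iff]
  intro x _
  have := htop x 1 h1
  rwa [mul_one] at this

end

/-- the fields -/
abbrev KK (m : ℕ) : Type := GaloisField 5 (4 * (m + 1))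

theorem card_KK (m : ℕ) : Nat.card (KK m) = (25 ^ (m + 1)) ^ 2 := by
  rw [GaloisField.card 5 (4 * (m + 1)) (by omega)]
  have : (25 : ℕ) = 5 ^ 2 := by norm_num
  rw [this, ← pow_mul, ← pow_mul]
  congr 1
  ring

theorem exists_dat (m : ℕ) : ∃ D : Dat (KK m), D.Gen := by
  set Q : ℕ := 25 ^ (m + 1) with hQ
  have hQ1 : 25 ≤ Q := by
    rw [hQ]
    calc 25 = 25 ^ 1 := by norm_num
      _ ≤ _ := Nat.pow_le_pow_right (by norm_num) (by omega)
  have hcard : Nat.card (KK m) = Q ^ 2 := card_KK m
  haveI : Fintype (KK m) := Fintype.ofFinite _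
  have hcard' : Fintype.card (KK m) = Q ^ 2 := by rw [← Nat.card_eq_fintype_card, hcard]
  have hQ5 : Q = 5 ^ (2 * (m + 1)) := by
    rw [hQ, pow_mul]; norm_num
  obtain ⟨g, hg⟩ := IsCyclic.exists_ofOrder_eq_natCard (α := (KK m)ˣ)
  have hgo : orderOf g = Q ^ 2 - 1 := by
    rw [hg, Nat.card_units, hcard]
  have hfac : Q ^ 2 - 1 = (Q - 1) * (Q + 1) := by
    obtain ⟨q, hq⟩ : ∃ q, Q = q + 1 := ⟨Q - 1, by omega⟩
    rw [hq]
    simp only [Nat.add_sub_cancel]
    have : (q + 1) ^ 2 = q * (q + 1 + 1) + 1 := by ring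
    omega
  set t : (KK m)ˣ := g ^ (Q - 1) with ht
  have hto : orderOf t = Q + 1 := by
    rw [ht, orderOf_pow_of_dvd (by omega) (by rw [hgo, hfac]; exact dvd_mul_right _ _), hgo, hfac]
    exact Nat.mul_div_cancel_left _ (by omega)
  have h3 : Nat.Coprime 3 (Q + 1) := by
    rw [Nat.Prime.coprime_iff_not_dvd Nat.prime_three]
    intro h
    have h1 : Q % 3 = 1 := by
      rw [hQ, Nat.pow_mod]
      norm_num
    omega
  have hto3 : orderOf (t ^ 3) = Q + 1 := by
    rw [orderOf_pow, hto]
    have : Nat.gcd (Q + 1) 3 = 1 := by rw [Nat.gcd_comm]; exact h3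
    rw [this, Nat.div_one]
  let σ : KK m →+* KK m := iterateFrobenius (KK m) 5 (2 * (m + 1))
  have hσ : ∀ x, σ x = x ^ Q := by
    intro x
    show iterateFrobenius (KK m) 5 (2 * (m + 1)) x = _
    rw [iterateFrobenius_def, ← hQ5]
  have hone : (t : KK m) * (t : KK m) ^ Q = 1 := by
    rw [← pow_succ', ← Units.val_pow_eq_pow_val, ← hto, pow_orderOf_eq_one]
    rfl
  refine ⟨{ σ := σ, σσ := ?_, τ := t, τ' := (t : KK m) ^ Q, hτ := hone, hσ := hσ _, hne := ?_ }, ?_⟩
  · intro x
    rw [hσ, hσ, ← pow_mul, ← pow_two, ← hcard']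
    exact FiniteField.pow_card x
  · intro h
    have h1 : t ^ (Q - 1) = 1 := by
      apply Units.ext
      rw [Units.val_pow_eq_pow_val, Units.val_one]
      have h2 : (t : KK m) * (t : KK m) ^ (Q - 1) = (t : KK m) * 1 := by
        rw [← pow_succ', Nat.sub_add_cancel (by omega), mul_one]
        exact h.symm
      exact mul_left_cancel₀ (Units.ne_zero t) h2
    have h2 := orderOf_dvd_of_pow_eq_one h1
    rw [hto] at h2
    have := Nat.le_of_dvd (by omega) h2
    omega
  · intro B h1 hB
    apply gen_of_order Q (by omega) hcard ((t : KK m) ^ 3) ?_ B h1 hB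
    rw [← Units.val_pow_eq_pow_val, orderOf_units, hto3]

end Pool.Agent.H101R2.KT
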