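import Mathlib
import Pool.Agent.H101R2.KT.Angle

set_option autoImplicit false

namespace Pool.Agent.H101R2.KT

open scoped ComplexInnerProductSpace

variable {H : Type*} [NormedAddCommGroup H] [InnerProductSpace ℂ H]

theorem rin_smul_left (r : ℝ) (x y : H) : rin ((r : ℂ) • x) y = r * rin x y := by
  unfold rin
  rw [inner_smul_left]
  simp

theorem rin_smul_right (r : ℝ) (x y : H) : rin x ((r : ℂ) • y) = r * rin x y := by
  rw [rin_comm, rin_smul_left, rin_comm]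

theorem norm_add_sq' (x y : H) : ‖x + y‖ ^ 2 = ‖x‖ ^ 2 + 2 * rin x y + ‖y‖ ^ 2 := by
  rw [← rin_self, ← rin_self, ← rin_self, rin_add_left, rin_add_right, rin_add_right,
    rin_comm y x]
  ring

theorem norm_sub_sq' (x y : H) : ‖x - y‖ ^ 2 = ‖x‖ ^ 2 - 2 * rin x y + ‖y‖ ^ 2 := by
  rw [← rin_self, ← rin_self, ← rin_self, rin_sub_left, rin_sub_right, rin_sub_right,
    rin_comm y x]
  ring

theorem pair_arith (X A B c n : ℝ) (hX : 0 ≤ X) (hB : 0 ≤ B) (hn : 0 ≤ n)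
    (h5 : 5 * n ^ 2 ≤ A ^ 2) (hc : |c| ≤ n * B)
    (hCS : (A ^ 2 + B ^ 2) ^ 2 ≤ X * (A ^ 2 + B ^ 2 + 2 * c)) :
    0 ≤ 2 * (X - A ^ 2 - B ^ 2 + c) + 9 / 20 * ((X - A ^ 2) + (X - B ^ 2)) := by
  obtain ⟨hc1, hc2⟩ := abs_le.mp hc
  have hs0 : 0 ≤ A ^ 2 + B ^ 2 := by positivity
  -- `n * B ≤ 9/40 * s`
  have hnB : n * B ≤ 9 / 40 * (A ^ 2 + B ^ 2) := by
    have h1 : (n * B) ^ 2 ≤ (9 / 40 * (A ^ 2 + B ^ 2)) ^ 2 := by
      have h2 : (n * B) ^ 2 ≤ A ^ 2 * B ^ 2 / 5 := by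
        have := mul_le_mul_of_nonneg_right h5 (sq_nonneg B)
        nlinarith
      have h3 : A ^ 2 * B ^ 2 ≤ (A ^ 2 + B ^ 2) ^ 2 / 4 := by
        nlinarith [sq_nonneg (A ^ 2 - B ^ 2)]
      nlinarith [sq_nonneg (A ^ 2 + B ^ 2)]
    exact (le_abs_self _).trans (abs_le_of_sq_le_sq h1 (by positivity))
  rcases hs0.eq_or_lt with hs | hs
  · have hA : A ^ 2 = 0 := by nlinarith [sq_nonneg A, sq_nonneg B]
    have hB2 : B ^ 2 = 0 := by nlinarith [sq_nonneg A, sq_nonneg B]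
    have hc0 : c = 0 := by
      rw [← hs] at hnB
      linarith
    rw [hA, hB2, hc0]
    linarith
  · set s := A ^ 2 + B ^ 2 with hsdef
    have ht : 0 < s + 2 * c := by linarith
    have ht2 : s + 2 * c ≤ 29 / 20 * s := by linarith
    have key : 0 ≤ (s + 2 * c) * (2 * (X - A ^ 2 - B ^ 2 + c) +
        9 / 20 * ((X - A ^ 2) + (X - B ^ 2))) := by
      have e : (s + 2 * c) * (2 * (X - A ^ 2 - B ^ 2 + c) + 9 / 20 * ((X - A ^ 2) + (X - B ^ 2))) =
          29 / 10 * (X * (s + 2 * c)) - (69 / 20) * s * (s + 2 * c) + (s + 2 * c) ^ 2 := by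
        rw [hsdef]; ring
      rw [e]
      have e2 : 29 / 10 * s ^ 2 - (69 / 20) * s * (s + 2 * c) + (s + 2 * c) ^ 2 =
          (2 * s - (s + 2 * c)) * (29 / 20 * s - (s + 2 * c)) := by ring
      have h3 : 0 ≤ (2 * s - (s + 2 * c)) * (29 / 20 * s - (s + 2 * c)) :=
        mul_nonneg (by linarith) (by linarith)
      nlinarith
    exact (mul_nonneg_iff_of_pos_left ht).1 key

theorem pair (π : S →* (H ≃ₗᵢ[ℂ] H)) (x : H) :
    0 ≤ 2 * rin (x - avg (π.comp uH) x) (x - avg (π.comp lH) x) +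
      9 / 20 * (‖x - avg (π.comp uH) x‖ ^ 2 + ‖x - avg (π.comp lH) x‖ ^ 2) := by
  set P := avg (π.comp uH) with hP
  set P' := avg (π.comp lH) with hP'
  set R := avg π with hR
  set x' := x - R x with hx'
  have hPR : P (R x) = R x := avg_of_fixed _ fun a => smul_avg π _ x
  have hPR' : P' (R x) = R x := avg_of_fixed _ fun a => smul_avg π _ x
  have e1 : x - P x = x' - P x' := by
    rw [hx', map_sub, hPR]; abel
  have e2 : x - P' x = x' - P' x' := by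
    rw [hx', map_sub, hPR']; abel
  have hRx' : R x' = 0 := by
    rw [hx', map_sub, hR, avg_idem, sub_self]
  have hRa : R (P x') = 0 := by
    rw [hP, avg_apply (π.comp uH), map_smul, map_sum, Finset.sum_eq_zero, smul_zero]
    intro a _
    rw [MonoidHom.comp_apply, hR, avg_smul, ← hR, hRx']
  have hang := angle π (x := P x') (fun a => smul_avg (π.comp uH) (Multiplicative.ofAdd a) x') hRa
  rw [← hP'] at hang
  rw [e1, e2]
  have r1 : rin x' (P x') = ‖P x'‖ ^ 2 := by rw [rin_comm, hP, rin_avg_self]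
  have r2 : rin x' (P' x') = ‖P' x'‖ ^ 2 := by rw [rin_comm, hP', rin_avg_self]
  have r3 : rin (P x') (P' x') = rin (P' (P x')) (P' x') := by
    have h1 : rin (P' (P x')) (P' x') = rin (P x') (P' (P' x')) := rin_avg_left _ _ _
    rw [h1, hP', avg_idem]
  have hc : |rin (P x') (P' x')| ≤ ‖P' (P x')‖ * ‖P' x'‖ := by
    rw [r3]; exact abs_rin_le _ _
  have hCS : (‖P x'‖ ^ 2 + ‖P' x'‖ ^ 2) ^ 2 ≤ ‖x'‖ ^ 2 *
      (‖P x'‖ ^ 2 + ‖P' x'‖ ^ 2 + 2 * rin (P x') (P' x')) := by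
    have h1 : rin x' (P x' + P' x') = ‖P x'‖ ^ 2 + ‖P' x'‖ ^ 2 := by
      rw [rin_add_right, r1, r2]
    have h2 := abs_rin_le x' (P x' + P' x')
    have h3 : (rin x' (P x' + P' x')) ^ 2 ≤ (‖x'‖ * ‖P x' + P' x'‖) ^ 2 :=
      sq_le_sq' (by linarith [abs_le.mp h2 |>.1]) (abs_le.mp h2).2
    rw [h1, mul_pow, norm_add_sq'] at h3
    linarith
  have := pair_arith (‖x'‖ ^ 2) ‖P x'‖ ‖P' x'‖ (rin (P x') (P' x')) ‖P' (P x')‖
    (by positivity) (by positivity) (by positivity) hang hc hCS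
  have n1 : ‖x' - P x'‖ ^ 2 = ‖x'‖ ^ 2 - ‖P x'‖ ^ 2 := by rw [norm_sub_sq', r1]; ring
  have n2 : ‖x' - P' x'‖ ^ 2 = ‖x'‖ ^ 2 - ‖P' x'‖ ^ 2 := by rw [norm_sub_sq', r2]; ring
  have n3 : rin (x' - P x') (x' - P' x') =
      ‖x'‖ ^ 2 - ‖P x'‖ ^ 2 - ‖P' x'‖ ^ 2 + rin (P x') (P' x') := by
    rw [rin_sub_left x' (P x'), rin_sub_right x' x' (P' x'), rin_sub_right (P x') x' (P' x'),
      rin_self, r2, rin_comm (P x') x', r1]; ring
  rw [n1, n2, n3]
  exact this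

section iter

variable (P : Fin 3 → (H →L[ℂ] H))

/-- energy -/
noncomputable def En (x : H) : ℝ := ∑ i, ‖x - P i x‖ ^ 2

/-- one step of the descent -/
noncomputable def st (x : H) : H := x - ((1 / 3 : ℝ) : ℂ) • ∑ i, (x - P i x)

theorem En_nonneg (x : H) : 0 ≤ En P x := Finset.sum_nonneg fun _ _ => by positivity

theorem st_sub (x : H) : ‖st P x - x‖ ^ 2 ≤ 1 / 3 * En P x := by
  have h1 : st P x - x = -(((1 / 3 : ℝ) : ℂ) • ∑ i, (x - P i x)) := by
    unfold st; abel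
  rw [h1, norm_neg, norm_smul]
  have h2 : ‖∑ i, (x - P i x)‖ ^ 2 ≤ 3 * En P x := by
    have h3 : ‖∑ i, (x - P i x)‖ ≤ ∑ i, ‖x - P i x‖ := norm_sum_le _ _
    unfold En
    rw [Fin.sum_univ_three] at h3 ⊢
    rw [Fin.sum_univ_three]
    have h4 : ‖x - P 0 x + (x - P 1 x) + (x - P 2 x)‖ ^ 2 ≤
        (‖x - P 0 x‖ + ‖x - P 1 x‖ + ‖x - P 2 x‖) ^ 2 :=
      pow_le_pow_left₀ (norm_nonneg _) (by rw [Fin.sum_univ_three] at h3; exact h3) 2
    nlinarith [sq_nonneg (‖x - P 0 x‖ - ‖x - P 1 x‖), sq_nonneg (‖x - P 0 x‖ - ‖x - P 2 x‖),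
      sq_nonneg (‖x - P 1 x‖ - ‖x - P 2 x‖)]
  have h5 : ‖((1 / 3 : ℝ) : ℂ)‖ = 1 / 3 := by
    rw [Complex.norm_real]; norm_num
  rw [h5, mul_pow]
  nlinarith

theorem En_st (hid : ∀ i x, P i (P i x) = P i x) (hsym : ∀ i x y, rin (P i x) y = rin x (P i y))
    (hpair : ∀ i x, 0 ≤ 2 * rin (x - P i x) (x - P (i + 1) x) +
      9 / 20 * (‖x - P i x‖ ^ 2 + ‖x - P (i + 1) x‖ ^ 2)) (x : H) :
    En P (st P x) ≤ 29 / 30 * En P x := by
  set z : H := ∑ i, (x - P i x) with hz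
  have hst : st P x = x - ((1 / 3 : ℝ) : ℂ) • z := rfl
  have hz2 : 1 / 10 * En P x ≤ ‖z‖ ^ 2 := by
    have h0 := hpair 0 x
    have h1 := hpair 1 x
    have h2 := hpair 2 x
    have e1 : (0 : Fin 3) + 1 = 1 := rfl
    have e2 : (1 : Fin 3) + 1 = 2 := rfl
    have e3 : (2 : Fin 3) + 1 = 0 := rfl
    rw [e1] at h0
    rw [e2] at h1
    rw [e3] at h2
    have hzz : ‖z‖ ^ 2 = ‖x - P 0 x‖ ^ 2 + ‖x - P 1 x‖ ^ 2 + ‖x - P 2 x‖ ^ 2 +
        2 * rin (x - P 0 x) (x - P 1 x) + 2 * rin (x - P 1 x) (x - P 2 x) +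
        2 * rin (x - P 2 x) (x - P 0 x) := by
      rw [hz, Fin.sum_univ_three, norm_add_sq', norm_add_sq', rin_add_left,
        rin_comm (x - P 0 x) (x - P 2 x)]
      ring
    unfold En
    rw [hzz, Fin.sum_univ_three]
    linarith
  have hstep : ∀ i, ‖st P x - P i (st P x)‖ ^ 2 ≤
      ‖x - P i x‖ ^ 2 - 2 / 3 * rin (x - P i x) z + 1 / 9 * ‖z‖ ^ 2 := by
    intro i
    have e1 : st P x - P i (st P x) = (x - P i x) - ((1 / 3 : ℝ) : ℂ) • (z - P i z) := by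
      rw [hst, map_sub, map_smul, smul_sub]; abel
    have e2 : rin (x - P i x) (z - P i z) = rin (x - P i x) z := by
      rw [rin_sub_right, ← hsym, map_sub, hid, sub_self, rin_zero_left, sub_zero]
    have e3 : ‖z - P i z‖ ^ 2 ≤ ‖z‖ ^ 2 := by
      rw [norm_sub_sq', ← hsym]
      have : rin (P i z) z = ‖P i z‖ ^ 2 := by
        rw [← rin_self, hsym, hsym, hid]
      rw [this]
      nlinarith [sq_nonneg ‖P i z‖]
    rw [e1, norm_sub_sq', rin_smul_right, e2, norm_smul]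
    have h5 : ‖((1 / 3 : ℝ) : ℂ)‖ = 1 / 3 := by
      rw [Complex.norm_real]; norm_num
    rw [h5, mul_pow]
    nlinarith
  have hsum : En P (st P x) ≤ En P x - 2 / 3 * ‖z‖ ^ 2 + 1 / 3 * ‖z‖ ^ 2 := by
    have hzr : ‖z‖ ^ 2 = rin (x - P 0 x) z + rin (x - P 1 x) z + rin (x - P 2 x) z := by
      rw [← rin_self]
      conv_lhs => rw [hz, Fin.sum_univ_three]
      rw [rin_add_left, rin_add_left, hz, Fin.sum_univ_three]
    unfold En
    rw [Fin.sum_univ_three, Fin.sum_univ_three]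
    have h0 := hstep 0
    have h1 := hstep 1
    have h2 := hstep 2
    linarith
  nlinarith

theorem exists_fixed [CompleteSpace H] (hid : ∀ i x, P i (P i x) = P i x)
    (hsym : ∀ i x y, rin (P i x) y = rin x (P i y))
    (hpair : ∀ i x, 0 ≤ 2 * rin (x - P i x) (x - P (i + 1) x) +
      9 / 20 * (‖x - P i x‖ ^ 2 + ‖x - P (i + 1) x‖ ^ 2)) (x : H) (hx : ‖x‖ = 1)
    (hE : ∀ i, ‖P i x - x‖ ≤ 1 / 200) : ∃ v : H, v ≠ 0 ∧ ∀ i, P i v = v := by
  set f : ℕ → H := fun n => (st P)^[n] x with hf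
  have hEn : ∀ n, En P (f n) ≤ (29 / 30) ^ n * (1 / 100) ^ 2 := by
    intro n
    induction n with
    | zero =>
      have h : ∀ i, ‖x - P i x‖ ^ 2 ≤ (1 / 200) ^ 2 := by
        intro i
        rw [norm_sub_rev]
        exact pow_le_pow_left₀ (norm_nonneg _) (hE i) 2
      have h0 := h 0
      have h1 := h 1
      have h2 := h 2
      show En P x ≤ _
      unfold En
      rw [Fin.sum_univ_three]
      norm_num at h0 h1 h2 ⊢
      linarith
    | succ n ih =>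
      have : f (n + 1) = st P (f n) := by
        rw [hf]; exact Function.iterate_succ_apply' _ _ _
      rw [this, pow_succ]
      calc _ ≤ 29 / 30 * En P (f n) := En_st P hid hsym hpair _
        _ ≤ 29 / 30 * ((29 / 30) ^ n * (1 / 100) ^ 2) := by gcongr
        _ = _ := by ring
  have hdist : ∀ n, dist (f n) (f (n + 1)) ≤ (1 / 100) * (59 / 60 : ℝ) ^ n := by
    intro n
    have h1 : f (n + 1) = st P (f n) := by
      rw [hf]; exact Function.iterate_succ_apply' _ _ _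
    rw [dist_comm, dist_eq_norm, h1]
    have h2 := st_sub P (f n)
    have h3 := hEn n
    have h4 : (29 / 30 : ℝ) ^ n ≤ ((59 / 60 : ℝ) ^ n) ^ 2 := by
      rw [← pow_mul, mul_comm n 2, pow_mul]
      exact pow_le_pow_left₀ (by norm_num) (by norm_num) n
    have h5 : ‖st P (f n) - f n‖ ^ 2 ≤ ((1 / 100) * (59 / 60 : ℝ) ^ n) ^ 2 := by
      rw [mul_pow]
      have h6 : (0 : ℝ) ≤ (29 / 30 : ℝ) ^ n := by positivity
      nlinarith
    exact (le_abs_self _).trans (abs_le_of_sq_le_sq h5 (by positivity))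
  have hcau : CauchySeq f := cauchySeq_of_le_geometric (59 / 60) (1 / 100) (by norm_num) hdist
  obtain ⟨v, hv⟩ := cauchySeq_tendsto_of_complete hcau
  have hd : dist (f 0) v ≤ (1 / 100) / (1 - 59 / 60) :=
    dist_le_of_le_geometric_of_tendsto₀ (59 / 60) (1 / 100) (by norm_num) hdist hv
  refine ⟨v, ?_, ?_⟩
  · rintro rfl
    have : dist (f 0) 0 = 1 := by
      rw [dist_zero_right]; exact hx
    rw [this] at hd
    norm_num at hd
  · intro i
    have h1 : Filter.Tendsto (fun n => ‖f n - P i (f n)‖ ^ 2) Filter.atTop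
        (nhds (‖v - P i v‖ ^ 2)) := by
      apply Filter.Tendsto.pow
      apply Filter.Tendsto.norm
      exact hv.sub (((P i).continuous.tendsto v).comp hv)
    have h2 : Filter.Tendsto (fun n : ℕ => (29 / 30 : ℝ) ^ n * (1 / 100) ^ 2) Filter.atTop
        (nhds (0 * (1 / 100) ^ 2)) :=
      (tendsto_pow_atTop_nhds_zero_of_lt_one (by norm_num) (by norm_num)).mul_const _
    have h3 : ‖v - P i v‖ ^ 2 ≤ 0 * (1 / 100) ^ 2 := by
      refine le_of_tendsto_of_tendsto' h1 h2 fun n => ?_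
      refine le_trans ?_ (hEn n)
      unfold En
      exact Finset.single_le_sum (f := fun i => ‖f n - P i (f n)‖ ^ 2)
        (fun j _ => by positivity) (Finset.mem_univ i)
    have h4 : ‖v - P i v‖ = 0 := by
      have : ‖v - P i v‖ ^ 2 = 0 := le_antisymm (by simpa using h3) (by positivity)
      exact pow_eq_zero_iff (two_ne_zero) |>.1 this
    rw [norm_eq_zero, sub_eq_zero] at h4
    exact h4.symm

end iter

end Pool.Agent.H101R2.KT
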