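import Mathlib
import Pool.Agent.H101R2.KT.PropT

set_option autoImplicit false

namespace Pool.Agent.H101R2.KT

open scoped ComplexInnerProductSpace

theorem avg_congr {H : Type*} [NormedAddCommGroup H] [InnerProductSpace ℂ H]
    (π : S →* (H ≃ₗᵢ[ℂ] H)) (π' : S →* (H ≃ₗᵢ[ℂ] H)) (h : ∀ a, π (ll a) = π' (uu (-a))) :
    avg (π.comp lH) = avg (π'.comp uH) := by
  ext x
  rw [avg_apply, avg_apply]
  congr 1
  refine Fintype.sum_equiv (Equiv.inv _) _ _ fun a => ?_
  have : (π.comp lH) a = (π'.comp uH) a⁻¹ := h a.toAdd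
  rw [this]
  rfl

/-- Property (T) for groups generated by a triangle of `SL₂(𝔽₅)`'s. -/
theorem propertyT {G : Type*} [Group G] (φ : Fin 3 → (S →* G))
    (hc : ∀ i a, φ i (ll a) = φ (i + 1) (uu (-a)))
    (hgen : Subgroup.closure (⋃ i, Set.range (φ i)) = ⊤)
    (H : Type*) [NormedAddCommGroup H] [InnerProductSpace ℂ H] [CompleteSpace H]
    (ρ : G →* unitary (H →L[ℂ] H))
    (hρ : ∀ (S : Finset G) (ε : ℝ), 0 < ε →
              ∃ v : H, ‖v‖ = 1 ∧ ∀ s ∈ S, ‖(ρ s : H →L[ℂ] H) v - v‖ < ε) :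
    ∃ v : H, v ≠ 0 ∧ ∀ g : G, (ρ g : H →L[ℂ] H) v = v := by
  classical
  set π : G →* (H ≃ₗᵢ[ℂ] H) := (Unitary.linearIsometryEquiv (𝕜 := ℂ) (H := H)).toMonoidHom.comp ρ
    with hπ
  have hπa : ∀ g x, π g x = (ρ g : H →L[ℂ] H) x := fun g x => rfl
  set P : Fin 3 → (H →L[ℂ] H) := fun i => avg ((π.comp (φ i)).comp uH) with hP
  have hP' : ∀ i, avg ((π.comp (φ i)).comp lH) = P (i + 1) := by
    intro i
    apply avg_congr
    intro a
    show π (φ i (ll a)) = π (φ (i + 1) (uu (-a)))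
    rw [hc]
  obtain ⟨x, hx, hxs⟩ := hρ (Finset.univ.biUnion fun i : Fin 3 =>
    (Finset.univ : Finset (ZMod 5)).image fun a => φ i (uu a)) (1 / 200) (by norm_num)
  have hE : ∀ i, ‖P i x - x‖ ≤ 1 / 200 := by
    intro i
    apply norm_avg_sub
    intro a
    refine le_of_lt ?_
    exact hxs (φ i (uu a.toAdd)) (Finset.mem_biUnion.2 ⟨i, Finset.mem_univ _,
      Finset.mem_image.2 ⟨a.toAdd, Finset.mem_univ _, rfl⟩⟩)
  obtain ⟨v, hv0, hv⟩ := exists_fixed P (fun i x => avg_idem _ x) (fun i x y => rin_avg_left _ x y)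
    (fun i x => by
      have := pair (π.comp (φ i)) x
      rw [hP' i] at this
      exact this) x hx hE
  refine ⟨v, hv0, ?_⟩
  have hu : ∀ i a, π (φ i (uu a)) v = v := fun i a =>
    fixed_of_avg ((π.comp (φ i)).comp uH) (hv i) (Multiplicative.ofAdd a)
  have hl : ∀ i a, π (φ i (ll a)) v = v := by
    intro i a
    rw [hc]
    exact hu _ _
  let Fx : Subgroup G :=
    { carrier := {g | π g v = v}
      one_mem' := by simp
      mul_mem' := by
        intro a b ha hb
        show π (a * b) v = v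
        rw [map_mul]
        show π a (π b v) = v
        rw [show π b v = v from hb, show π a v = v from ha]
      inv_mem' := by
        intro a ha
        show π a⁻¹ v = v
        have h1 : π a⁻¹ (π a v) = v := by
          have : (π a⁻¹ * π a) v = v := by rw [← map_mul]; simp
          exact this
        rwa [show π a v = v from ha] at h1 }
  have hFx : Fx = ⊤ := by
    rw [eq_top_iff, ← hgen, Subgroup.closure_le]
    intro g hg
    obtain ⟨i, hi⟩ := Set.mem_iUnion.1 hg
    obtain ⟨s, rfl⟩ := hi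
    have : Fx.comap (φ i) = ⊤ := eq_top_of (fun a => hu i a) (fun a => hl i a)
    have hs : s ∈ Fx.comap (φ i) := by rw [this]; trivial
    exact hs
  intro g
  have : g ∈ Fx := by rw [hFx]; trivial
  exact this

end Pool.Agent.H101R2.KT
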